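import Mathlib

/-! # Definitions for the disproof of MP_cc1b6d_an (frozen statement S06164)

The polynomial sequence is `hP, gP, gP, gP, …` with
`g(z) = -100 (z^3 - 3 z) - 572/5` (swaps the two end points `-19/10`, `3/2` of its real hull) and
`h(z) = 17/20 (z^3 - 3 z) - 1/5` (its critical values are exactly `3/2` (at `-1`) and `-19/10`
(at `1`)). -/

set_option autoImplicit false

namespace Pool.Agent.H12.GJ

open Polynomial

/-- `g(x) = -100 (x^3 - 3x) - 572/5` on `ℝ`. -/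
noncomputable def gr (x : ℝ) : ℝ := -100 * (x ^ 3 - 3 * x) - 572 / 5

/-- `h(x) = 17/20 (x^3 - 3x) - 1/5` on `ℝ`. -/
noncomputable def hr (x : ℝ) : ℝ := 17 / 20 * (x ^ 3 - 3 * x) - 1 / 5

noncomputable def gP : ℂ[X] := C (-100) * (X ^ 3 - C 3 * X) - C (572 / 5)

noncomputable def hP : ℂ[X] := C (17 / 20) * (X ^ 3 - C 3 * X) - C (1 / 5)

/-- the polynomial sequence -/
noncomputable def fs (n : ℕ) : ℂ[X] := if n = 0 then hP else gP

/-- its compositions -/
noncomputable def Fs : ℕ → ℂ → ℂ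
  | 0, z => z
  | n + 1, z => (fs n).eval (Fs n z)

/-- the Julia set, as in the frozen statement -/
def JS : Set ℂ := frontier {z : ℂ | ∃ M : ℝ, ∀ n, ‖Fs n z‖ ≤ M}

/-- the real Julia set of `g` -/
def Kg : Set ℝ := {x : ℝ | ∀ n : ℕ, gr^[n] x ∈ Set.Icc (-19 / 10 : ℝ) (3 / 2)}

/-- the real Julia set of the sequence -/
def K0 : Set ℝ := {x : ℝ | hr x ∈ Kg}

end Pool.Agent.H12.GJ
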