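import Pool.Agent.H12.GJ.NonAP
import Pool.Agent.H12.GJ.Defs

/-! # Assembly -/

set_option autoImplicit false

namespace Pool.Agent.H12.GJ

open Filter Topology Polynomial MeasureTheory

/-- what is needed from the equilibrium measure -/
def MeasSpec : Prop := ∃ (m0 m : Measure ℝ), IsProbabilityMeasure m0 ∧ IsProbabilityMeasure m ∧
  (∀ᵐ x ∂m0, x ∈ Set.Icc (-2:ℝ) 2) ∧ (∀ᵐ x ∂m, x ∈ Set.Icc (-19/10:ℝ) (3/2)) ∧
  (∀ q : ℝ[X], ∫ x, q.eval (hr x) ∂m0 = ∫ y, q.eval y ∂m) ∧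
  (∀ q : ℝ[X], ∫ x, x * q.eval (hr x) ∂m0 = 0) ∧
  (∀ q : ℝ[X], ∫ x, (x^2-2) * q.eval (hr x) ∂m0 = 0) ∧
  (∀ q : ℝ[X], ∫ x, q.eval (gr x) ∂m = ∫ y, q.eval y ∂m) ∧
  (∀ q : ℝ[X], ∫ x, x * q.eval (gr x) ∂m = 0) ∧
  (∀ q : ℝ[X], ∫ x, (x^2-2) * q.eval (gr x) ∂m = 0) ∧
  NoAtoms (m0.map Complex.ofReal) ∧ (m0.map Complex.ofReal) JSᶜ = 0 ∧
  (∫⁻ z, ∫⁻ w, ENNReal.ofReal (Real.log ((Metric.diam JS + 1) / ‖z - w‖))
    ∂(m0.map Complex.ofReal) ∂(m0.map Complex.ofReal)) < ⊤ ∧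
  (∀ ν : Measure ℂ, IsProbabilityMeasure ν → NoAtoms ν → ν JSᶜ = 0 →
    (∫⁻ z, ∫⁻ w, ENNReal.ofReal (Real.log ((Metric.diam JS + 1) / ‖z - w‖))
      ∂(m0.map Complex.ofReal) ∂(m0.map Complex.ofReal)) ≤
    (∫⁻ z, ∫⁻ w, ENNReal.ofReal (Real.log ((Metric.diam JS + 1) / ‖z - w‖)) ∂ν ∂ν))

lemma poly_integrable (m : Measure ℝ) [IsProbabilityMeasure m] (a b : ℝ)
    (h : ∀ᵐ x ∂m, x ∈ Set.Icc a b) (q : ℝ[X]) : Integrable (fun x => q.eval x) m := by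
  have hc : Continuous (fun x => q.eval x) := q.continuous
  obtain ⟨C, hC⟩ := (isCompact_Icc (a := a) (b := b)).exists_bound_of_continuousOn hc.continuousOn
  refine Integrable.of_bound hc.aestronglyMeasurable C ?_
  filter_upwards [h] with x hx
  exact hC x hx

lemma ann_aux {l t : ℝ} {A' B' A B : ℕ → ℝ} (R : Renorm l t A' B' A B)
    (m0 m : Measure ℝ) [IsProbabilityMeasure m0] (a b : ℝ) (ha : ∀ᵐ x ∂m0, x ∈ Set.Icc a b)
    (h0 : ∀ q : ℝ[X], ∫ x, q.eval (l * (x ^ 3 - 3 * x) + t) ∂m0 = ∫ y, q.eval y ∂m)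
    (h1 : ∀ q : ℝ[X], ∫ x, x * q.eval (l * (x ^ 3 - 3 * x) + t) ∂m0 = 0)
    (h2 : ∀ q : ℝ[X], ∫ x, (x ^ 2 - 2) * q.eval (l * (x ^ 3 - 3 * x) + t) ∂m0 = 0) :
    (∀ n, ∫ x, (OP A B (3 * n)).eval x ∂m0 = l⁻¹ ^ n * ∫ y, (OP A' B' n).eval y ∂m) ∧
    (∀ n, ∫ x, (OP A B (3 * n + 1)).eval x ∂m0 = 0) ∧
    (∀ n, ∫ x, (OP A B (3 * n + 2)).eval x ∂m0 = 0) := by
  have i1 : ∀ q : ℝ[X], Integrable (fun x => x * q.eval (l * (x ^ 3 - 3 * x) + t)) m0 := by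
    intro q
    have := poly_integrable m0 a b ha (X * q.comp (C l * (X ^ 3 - C 3 * X) + C t))
    refine this.congr (ae_of_all _ fun x => ?_)
    simp [eval_comp]
  have i2 : ∀ q : ℝ[X], Integrable (fun x => (x ^ 2 - 2) * q.eval (l * (x ^ 3 - 3 * x) + t)) m0 := by
    intro q
    have := poly_integrable m0 a b ha ((X ^ 2 - C 2) * q.comp (C l * (X ^ 3 - C 3 * X) + C t))
    refine this.congr (ae_of_all _ fun x => ?_)
    simp [eval_comp]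
  refine ⟨fun n => ?_, fun n => ?_, fun n => ?_⟩
  · rw [← h0, ← integral_const_mul]
    refine integral_congr_ae (ae_of_all _ fun x => ?_)
    exact (R.main x n).1
  · have e : ∫ x, (OP A B (3 * n + 1)).eval x ∂m0 =
        ∫ x, (x * (sp l A' B' A B n).1.eval (l * (x ^ 3 - 3 * x) + t) +
      (x ^ 2 - 2) * (sp l A' B' A B n).2.eval (l * (x ^ 3 - 3 * x) + t)) ∂m0 := by
      refine integral_congr_ae (ae_of_all _ fun x => ?_)
      exact (R.main x n).2.1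
    rw [e, integral_add (i1 _) (i2 _), h1, h2, add_zero]
  · have e : ∫ x, (OP A B (3 * n + 2)).eval x ∂m0 =
        ∫ x, (x * ((sp l A' B' A B n).2 - C (B (3 * n + 1)) * (sp l A' B' A B n).1).eval
        (l * (x ^ 3 - 3 * x) + t) +
      (x ^ 2 - 2) * ((sp l A' B' A B n).1 - C (B (3 * n + 1)) * (sp l A' B' A B n).2).eval
        (l * (x ^ 3 - 3 * x) + t)) ∂m0 := by
      refine integral_congr_ae (ae_of_all _ fun x => ?_)
      exact (R.main x n).2.2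
    rw [e, integral_add (i1 _) (i2 _), h1, h2, add_zero]

lemma gr_eq (x : ℝ) : gr x = -100 * (x ^ 3 - 3 * x) + -572 / 5 := by rw [gr]; ring
lemma hr_eq (x : ℝ) : hr x = 17 / 20 * (x ^ 3 - 3 * x) + -1 / 5 := by rw [hr]; ring

section cubic

lemma cubic_facts (a b : ℂ) (ha : a ≠ 0) :
    (C a * (X ^ 3 - C 3 * X) - C b : ℂ[X]).natDegree = 3 ∧
    (C a * (X ^ 3 - C 3 * X) - C b : ℂ[X]).leadingCoeff = a ∧
    (∀ j, ‖(C a * (X ^ 3 - C 3 * X) - C b : ℂ[X]).coeff j‖ ≤ 3 * ‖a‖ + ‖b‖) := by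
  have hd : (C a * (X ^ 3 - C 3 * X) - C b : ℂ[X]).natDegree = 3 := by
    compute_degree!
  have hc : ∀ j, (C a * (X ^ 3 - C 3 * X) - C b : ℂ[X]).coeff j =
      a * ((if j = 3 then 1 else 0) - 3 * (if 1 = j then 1 else 0)) - (if j = 0 then b else 0) := by
    intro j
    simp only [coeff_sub, coeff_C_mul, coeff_X_pow, coeff_X, coeff_C]
  refine ⟨hd, ?_, ?_⟩
  · rw [leadingCoeff, hd, hc]; norm_num
  · intro j
    rw [hc]
    have hna := norm_nonneg a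
    have hnb := norm_nonneg b
    by_cases h3 : j = 3
    · subst h3; norm_num <;> linarith
    · by_cases h1 : j = 1
      · subst h1; norm_num <;> linarith
      · by_cases h0 : j = 0
        · subst h0; norm_num <;> linarith
        · rw [if_neg h3, if_neg (Ne.symm h1), if_neg h0]; simp <;> positivity

end cubic

lemma fs_regular : ∃ A₁ A₂ A₃ : ℝ, 0 < A₁ ∧ 0 ≤ A₂ ∧ 0 < A₃ ∧
        ∀ n, 2 ≤ (fs n).natDegree ∧ A₁ ≤ ‖(fs n).leadingCoeff‖ ∧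
          (∀ j, ‖(fs n).coeff j‖ ≤ A₂ * ‖(fs n).leadingCoeff‖) ∧
          Real.log ‖(fs n).leadingCoeff‖ ≤ A₃ * ((fs n).natDegree : ℝ) := by
  have key : ∀ (a b : ℂ), 1 / 2 ≤ ‖a‖ → ‖a‖ ≤ 100 → ‖b‖ ≤ 2 * ‖a‖ → ∀ p : ℂ[X],
      p = C a * (X ^ 3 - C 3 * X) - C b →
      2 ≤ p.natDegree ∧ 1 / 2 ≤ ‖p.leadingCoeff‖ ∧
          (∀ j, ‖p.coeff j‖ ≤ 5 * ‖p.leadingCoeff‖) ∧
          Real.log ‖p.leadingCoeff‖ ≤ 100 * (p.natDegree : ℝ) := by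
    intro a b h1 h2 h3 p hp
    subst hp
    have ha : a ≠ 0 := by
      intro h; rw [h, norm_zero] at h1; norm_num at h1
    obtain ⟨e1, e2, e3⟩ := cubic_facts a b ha
    rw [e1, e2]
    refine ⟨by norm_num, h1, fun j => (e3 j).trans (by linarith), ?_⟩
    have := Real.log_le_sub_one_of_pos (show 0 < ‖a‖ by linarith)
    push_cast
    linarith
  refine ⟨1 / 2, 5, 100, by norm_num, by norm_num, by norm_num, fun n => ?_⟩
  by_cases hn : n = 0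
  · subst hn
    apply key (17 / 20) (1 / 5) (by norm_num) (by norm_num) (by norm_num)
    rw [fs, if_pos rfl, hP]
  · apply key (-100) (572 / 5) (by norm_num) (by norm_num) (by norm_num)
    rw [fs, if_neg hn, gP]

theorem final_of (hJ1 : JS ⊆ {z : ℂ | z.im = 0}) (hJ2 : IsTotallyDisconnected JS)
    (hM : MeasSpec) : 
    ¬ (∀ (f : ℕ → Polynomial ℂ) (F : ℕ → ℂ → ℂ) (J : Set ℂ),
      (∃ A₁ A₂ A₃ : ℝ, 0 < A₁ ∧ 0 ≤ A₂ ∧ 0 < A₃ ∧
        ∀ n, 2 ≤ (f n).natDegree ∧ A₁ ≤ ‖(f n).leadingCoeff‖ ∧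
          (∀ j, ‖(f n).coeff j‖ ≤ A₂ * ‖(f n).leadingCoeff‖) ∧
          Real.log ‖(f n).leadingCoeff‖ ≤ A₃ * ((f n).natDegree : ℝ)) →
      (∀ z, F 0 z = z) →
      (∀ n z, F (n + 1) z = (f n).eval (F n z)) →
      J = frontier {z : ℂ | ∃ M : ℝ, ∀ n, ‖F n z‖ ≤ M} →
      J ⊆ {z : ℂ | z.im = 0} →
      IsTotallyDisconnected J →
      ∀ μ : Measure ℂ, IsProbabilityMeasure μ → NoAtoms μ → μ Jᶜ = 0 →
      (∫⁻ z, ∫⁻ w, ENNReal.ofReal (Real.log ((Metric.diam J + 1) / ‖z - w‖)) ∂μ ∂μ) < ⊤ →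
      (∀ ν : Measure ℂ, IsProbabilityMeasure ν → NoAtoms ν → ν Jᶜ = 0 →
        (∫⁻ z, ∫⁻ w, ENNReal.ofReal (Real.log ((Metric.diam J + 1) / ‖z - w‖)) ∂μ ∂μ) ≤
          (∫⁻ z, ∫⁻ w, ENNReal.ofReal (Real.log ((Metric.diam J + 1) / ‖z - w‖)) ∂ν ∂ν)) →
      ∀ (a b : ℕ → ℝ) (P : ℕ → Polynomial ℝ),
        (∀ n, 0 < a n) →
        P 0 = 1 →
        P 1 = Polynomial.X - Polynomial.C (b 0) →
        (∀ n, P (n + 2) = (Polynomial.X - Polynomial.C (b (n + 1))) * P (n + 1)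
                - Polynomial.C (a n ^ 2) * P n) →
        (∀ n m, n ≠ m → ∫ z, (P n).eval z.re * (P m).eval z.re ∂μ = 0) →
        ∃ α β : ℤ → ℝ,
          (∀ ε > 0, ∃ L : ℕ, ∀ m : ℤ, ∃ τ : ℤ, m ≤ τ ∧ τ ≤ m + (L : ℤ) ∧
            ∀ k : ℤ, |α (k + τ) - α k| < ε ∧ |β (k + τ) - β k| < ε) ∧
          Tendsto (fun n : ℕ => |a n - α (n : ℤ)| + |b n - β (n : ℤ)|) atTop (𝓝 0)) := by
  intro H
  obtain ⟨m0, m, pm0, pm, s0, s1, a1, a2, a3, c1, c2, c3, hna, hJc, hfin, hmin⟩ := hM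
  -- annihilation at level `g`
  simp_rw [gr_eq] at c1 c2 c3
  simp_rw [hr_eq] at a1 a2 a3
  obtain ⟨g1, g2, g3⟩ := ann_aux renorm_g m m _ _ s1 c1 c2 c3
  have hg : ∀ k, 0 < k → ∫ y, (OP AA BB k).eval y ∂m = 0 := by
    intro k
    induction k using Nat.strong_induction_on with
    | _ k ih =>
      intro hk
      rcases (show k % 3 = 0 ∨ k % 3 = 1 ∨ k % 3 = 2 by omega) with h | h | h
      · obtain ⟨n, hn⟩ : ∃ n, k = 3 * n := ⟨k / 3, by omega⟩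
        rw [hn, g1, ih n (by omega) (by omega), mul_zero]
      · obtain ⟨n, hn⟩ : ∃ n, k = 3 * n + 1 := ⟨k / 3, by omega⟩
        rw [hn, g2]
      · obtain ⟨n, hn⟩ : ∃ n, k = 3 * n + 2 := ⟨k / 3, by omega⟩
        rw [hn, g3]
  obtain ⟨f1, f2, f3⟩ := ann_aux renorm_0 m0 m _ _ s0 a1 a2 a3
  have hf : ∀ k, ∫ y, (OP A0 B0 (k + 1)).eval y ∂m0 = 0 := by
    intro k
    rcases (show (k + 1) % 3 = 0 ∨ (k + 1) % 3 = 1 ∨ (k + 1) % 3 = 2 by omega) with h | h | h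
    · obtain ⟨n, hn⟩ : ∃ n, k + 1 = 3 * n := ⟨(k + 1) / 3, by omega⟩
      rw [hn, f1, hg n (by omega), mul_zero]
    · obtain ⟨n, hn⟩ : ∃ n, k + 1 = 3 * n + 1 := ⟨(k + 1) / 3, by omega⟩
      rw [hn, f2]
    · obtain ⟨n, hn⟩ : ∃ n, k + 1 = 3 * n + 2 := ⟨(k + 1) / 3, by omega⟩
      rw [hn, f3]
  have horth := orth_of_ann (A := A0) (B := B0) (fun q => ∫ y, q.eval y ∂m0)
    (fun p q => by
      simp only [eval_add]
      exact integral_add (poly_integrable m0 _ _ s0 p) (poly_integrable m0 _ _ s0 q))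
    (fun c p => by
      simp only [eval_mul, eval_C]
      exact integral_const_mul _ _) hf
  have hpush : ∀ n k, n ≠ k → ∫ z, (OP A0 B0 n).eval z.re * (OP A0 B0 k).eval z.re
      ∂(m0.map Complex.ofReal) = 0 := by
    intro n k hnk
    rw [integral_map Complex.measurable_ofReal.aemeasurable]
    · have := horth n k hnk
      simp only [eval_mul] at this
      simpa using this
    · apply Continuous.aestronglyMeasurable
      exact ((OP A0 B0 n).continuous.comp Complex.continuous_re).mul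
        ((OP A0 B0 k).continuous.comp Complex.continuous_re)
  have : IsProbabilityMeasure (m0.map Complex.ofReal) :=
    Measure.isProbabilityMeasure_map Complex.measurable_ofReal.aemeasurable
  obtain ⟨α, β, h1, h2⟩ := H fs Fs JS fs_regular (fun z => by rw [Fs]) (fun n z => by rw [Fs]) rfl hJ1 hJ2
    (m0.map Complex.ofReal) inferInstance hna hJc hfin hmin
    (fun n => Real.sqrt (A0 (n + 1))) B0 (OP A0 B0)
    (fun n => Real.sqrt_pos.mpr (A0_pos n)) OP_zero OP_one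
    (fun n => by rw [OP_succ, Real.sq_sqrt (A0_pos n).le]) hpush
  refine B0_not_aap ⟨β, fun ε hε => ?_, ?_⟩
  · obtain ⟨L, hL⟩ := h1 ε hε
    refine ⟨L, fun m => ?_⟩
    obtain ⟨τ, t1, t2, t3⟩ := hL m
    exact ⟨τ, t1, t2, fun k => (t3 k).2⟩
  · refine squeeze_zero (fun n => abs_nonneg _) (fun n => ?_) h2
    have := abs_nonneg (Real.sqrt (A0 (n + 1)) - α (n : ℤ))
    linarith

end Pool.Agent.H12.GJ
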