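import Pool.Agent.H12.GJ.Seq

/-! # 3-adic uniform continuity of the Jacobi parameters of `J_g` -/

set_option autoImplicit false

namespace Pool.Agent.H12.GJ

open Polynomial

/-- the formula for `(st m).2` valid for all `m`. -/
lemma st_snd_eq (m : ℕ) : (st m).2 =
    (143 / 125 + BB m / 100 + (st m).1 * BB (3 * (m - 1) + 2)) / (2 - (st m).1) := by
  rcases m with _ | m
  · have h0 := BB0 0
    rw [mul_zero] at h0
    rw [st_zero, h0]; norm_num
  · rw [Nat.add_sub_cancel, BB2, st_succ_snd]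

lemma stE_aux (D a a' q q' : ℝ) (hD : 0 ≤ D) (ha : 0 ≤ a') (ha2 : a' ≤ 2)
    (h : |a - a'| ≤ D) (hq : 12000 ≤ q) (hq' : 12000 ≤ q') (hqq : |q - q'| ≤ 30000 * D) :
    |a / q - a' / q'| ≤ D / 1000 := by
  have hq0 : 0 < q := by linarith
  have hq0' : 0 < q' := by linarith
  have e : a / q - a' / q' = (a - a') / q - a' * (q - q') / (q * q') := by
    field_simp; ring
  rw [e]
  have h1 : |(a - a') / q| ≤ D / 12000 := by
    rw [abs_div, abs_of_pos hq0]
    exact div_le_div₀ hD h (by norm_num) hq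
  have h2 : |a' * (q - q') / (q * q')| ≤ 60000 * D / (12000 * 12000) := by
    rw [abs_div, abs_of_pos (mul_pos hq0 hq0'), abs_mul, abs_of_nonneg ha]
    apply div_le_div₀ (by positivity) _ (by norm_num) (by nlinarith)
    calc a' * |q - q'| ≤ 2 * (30000 * D) := mul_le_mul ha2 hqq (abs_nonneg _) (by norm_num)
      _ = 60000 * D := by ring
  have h3 := abs_sub ((a - a') / q) (a' * (q - q') / (q * q'))
  have h4 : D / 12000 + 60000 * D / (12000 * 12000) ≤ D / 1000 := by linarith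
  linarith

/-- step: from `(AA, BB)` at level `s` to `st` at level `s`. -/
lemma st_adic (s : ℕ) (D : ℝ) (hD : 0 ≤ D)
    (h : ∀ n n' : ℕ, n ≡ n' [MOD 3 ^ s] → |AA n - AA n'| ≤ D ∧ |BB n - BB n'| ≤ D)
    (m m' : ℕ) (hm : m ≡ m' [MOD 3 ^ s]) :
    |(st m).1 - (st m').1| ≤ D / 1000 ∧ |(st m).2 - (st m').2| ≤ D / 50 := by
  have key : ∀ m m' : ℕ, m ≡ m' [MOD 3 ^ s] → |(st (m + 1)).1 - (st (m' + 1)).1| ≤ D / 1000 := by
    intro m m' hm
    rw [st_succ_fst, st_succ_fst]
    obtain ⟨g1, g2, g3, g4, g5⟩ := st_bd m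
    obtain ⟨k1, k2, k3, k4, k5⟩ := st_bd m'
    have hm1 : m + 1 ≡ m' + 1 [MOD 3 ^ s] := hm.add_right 1
    have ha1 : 3 * m + 1 ≡ 3 * m' + 1 [MOD 3 ^ s] := (hm.mul_left 3).add_right 1
    have ha2 : 3 * m + 2 ≡ 3 * m' + 2 [MOD 3 ^ s] := (hm.mul_left 3).add_right 2
    have h1 := (h _ _ ha1).1
    have h2 := (h _ _ ha2).1
    rw [AA1, AA1] at h1
    rw [AA2, AA2] at h2
    refine stE_aux D _ _ _ _ hD (AA_bd _).1 (AA_bd _).2.1 (h _ _ hm1).1 (by nlinarith) (by nlinarith) ?_
    have e : 10000 * ((2 - (st m).1) * (1 - (st m).2 ^ 2)) -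
        10000 * ((2 - (st m').1) * (1 - (st m').2 ^ 2)) =
        10000 * (((2 - (st m).1) - (2 - (st m').1)) * (1 - (st m).2 ^ 2) +
          (2 - (st m').1) * ((1 - (st m).2 ^ 2) - (1 - (st m').2 ^ 2))) := by ring
    rw [e, abs_mul, abs_of_pos (by norm_num : (0:ℝ) < 10000)]
    have h3 := abs_add_le (((2 - (st m).1) - (2 - (st m').1)) * (1 - (st m).2 ^ 2))
      ((2 - (st m').1) * ((1 - (st m).2 ^ 2) - (1 - (st m').2 ^ 2)))
    rw [abs_mul, abs_mul] at h3
    have h4 : |1 - (st m).2 ^ 2| ≤ 7 / 10 := by rw [abs_le]; constructor <;> nlinarith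
    have h5 : |2 - (st m').1| ≤ 2 := by rw [abs_le]; constructor <;> linarith
    have h6 := mul_le_mul h1 h4 (abs_nonneg _) hD
    have h7 := mul_le_mul h5 h2 (abs_nonneg _) (by norm_num : (0:ℝ) ≤ 2)
    linarith
  have key0 : ∀ m' : ℕ, 0 ≡ m' + 1 [MOD 3 ^ s] → |(st (m' + 1)).1| ≤ D / 1000 := by
    intro m' hm
    rw [st_succ_fst]
    obtain ⟨k1, k2, k3, k4, k5⟩ := st_bd m'
    have h1 := (h _ _ hm).1
    have h2 := renorm_g.hA0
    rw [h2, zero_sub, abs_neg, abs_of_nonneg (AA_bd _).1] at h1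
    have h3 : (12000 : ℝ) < 10000 * ((2 - (st m').1) * (1 - (st m').2 ^ 2)) := by nlinarith
    rw [abs_of_nonneg (div_nonneg (AA_bd _).1 (by linarith))]
    calc AA (m' + 1) / (10000 * ((2 - (st m').1) * (1 - (st m').2 ^ 2))) ≤ D / 12000 :=
          div_le_div₀ hD h1 (by norm_num) h3.le
      _ ≤ D / 1000 := by linarith
  have hfst : |(st m).1 - (st m').1| ≤ D / 1000 := by
    rcases m with _ | m <;> rcases m' with _ | m'
    · simp; positivity
    · have := key0 m' hm
      rw [st_zero]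
      simpa using this
    · have := key0 m hm.symm
      rw [st_zero]
      simpa using this
    · exact key m m' (Nat.ModEq.add_right_cancel' 1 hm)
  refine ⟨hfst, ?_⟩
  obtain ⟨g1, g2, g3, g4, g5⟩ := st_bd m
  obtain ⟨k1, k2, k3, k4, k5⟩ := st_bd m'
  have hB := (h _ _ hm).2
  -- the product term
  have hprod : |(st m).1 * BB (3 * (m - 1) + 2) - (st m').1 * BB (3 * (m' - 1) + 2)| ≤ D / 1000 := by
    rcases m with _ | m <;> rcases m' with _ | m'
    · simp; positivity
    · have h1 := key0 m' hm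
      rw [st_zero, zero_mul, zero_sub, abs_neg, abs_mul]
      have h2 : |BB (3 * (m' + 1 - 1) + 2)| ≤ 1 := by
        have := BB_bd (3 * (m' + 1 - 1) + 2)
        rw [abs_le]; constructor <;> linarith
      nlinarith [abs_nonneg (st (m' + 1)).1, abs_nonneg (BB (3 * (m' + 1 - 1) + 2))]
    · have h1 := key0 m hm.symm
      rw [st_zero, zero_mul, sub_zero, abs_mul]
      have h2 : |BB (3 * (m + 1 - 1) + 2)| ≤ 1 := by
        have := BB_bd (3 * (m + 1 - 1) + 2)
        rw [abs_le]; constructor <;> linarith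
      nlinarith [abs_nonneg (st (m + 1)).1, abs_nonneg (BB (3 * (m + 1 - 1) + 2))]
    · have hmm : m ≡ m' [MOD 3 ^ s] := Nat.ModEq.add_right_cancel' 1 hm
      have h1 := hfst
      have ha2 : 3 * (m + 1 - 1) + 2 ≡ 3 * (m' + 1 - 1) + 2 [MOD 3 ^ s] := by
        simp only [Nat.add_sub_cancel]
        exact (hmm.mul_left 3).add_right 2
      have h2 := (h _ _ ha2).2
      have h3 : |BB (3 * (m + 1 - 1) + 2)| ≤ 29 / 50 := by
        have := BB_bd (3 * (m + 1 - 1) + 2)
        rw [abs_le]; constructor <;> linarith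
      have e : (st (m + 1)).1 * BB (3 * (m + 1 - 1) + 2) -
          (st (m' + 1)).1 * BB (3 * (m' + 1 - 1) + 2) =
          ((st (m + 1)).1 - (st (m' + 1)).1) * BB (3 * (m + 1 - 1) + 2) +
          (st (m' + 1)).1 * (BB (3 * (m + 1 - 1) + 2) - BB (3 * (m' + 1 - 1) + 2)) := by ring
      rw [e]
      have h4 := abs_add_le (((st (m + 1)).1 - (st (m' + 1)).1) * BB (3 * (m + 1 - 1) + 2))
        ((st (m' + 1)).1 * (BB (3 * (m + 1 - 1) + 2) - BB (3 * (m' + 1 - 1) + 2)))
      rw [abs_mul, abs_mul, abs_of_nonneg k1] at h4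
      have h5 := mul_le_mul h1 h3 (abs_nonneg _) (by positivity)
      have h6 := mul_le_mul k2 h2 (abs_nonneg _) (by norm_num : (0:ℝ) ≤ 1 / 5000)
      linarith
  rw [st_snd_eq m, st_snd_eq m']
  set N := 143 / 125 + BB m / 100 + (st m).1 * BB (3 * (m - 1) + 2) with hN
  set N' := 143 / 125 + BB m' / 100 + (st m').1 * BB (3 * (m' - 1) + 2) with hN'
  have hNN : |N - N'| ≤ D / 100 + D / 1000 := by
    have e : N - N' = (BB m - BB m') / 100 + ((st m).1 * BB (3 * (m - 1) + 2) -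
      (st m').1 * BB (3 * (m' - 1) + 2)) := by rw [hN, hN']; ring
    rw [e]
    have h4 := abs_add_le ((BB m - BB m') / 100) ((st m).1 * BB (3 * (m - 1) + 2) -
      (st m').1 * BB (3 * (m' - 1) + 2))
    rw [abs_div, abs_of_pos (by norm_num : (0:ℝ) < 100)] at h4
    linarith
  have hN'b : |N'| ≤ 2 := by
    have h1 := BB_bd m'
    have h2 := BB_bd (3 * (m' - 1) + 2)
    rw [abs_le, hN']; constructor <;> nlinarith
  have hd : 0 < 2 - (st m).1 := by linarith
  have hd' : 0 < 2 - (st m').1 := by linarith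
  have e : N / (2 - (st m).1) - N' / (2 - (st m').1) =
      (N - N') / (2 - (st m).1) +
        N' * ((st m).1 - (st m').1) / ((2 - (st m).1) * (2 - (st m').1)) := by
    field_simp; ring
  rw [e]
  have h4 := abs_add_le ((N - N') / (2 - (st m).1))
    (N' * ((st m).1 - (st m').1) / ((2 - (st m).1) * (2 - (st m').1)))
  have h5 : |(N - N') / (2 - (st m).1)| ≤ (D / 100 + D / 1000) / 1 := by
    rw [abs_div, abs_of_pos hd]
    exact div_le_div₀ (by positivity) hNN (by norm_num) (by linarith)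
  have h6 : |N' * ((st m).1 - (st m').1) / ((2 - (st m).1) * (2 - (st m').1))| ≤
      2 * (D / 1000) / 1 := by
    rw [abs_div, abs_of_pos (mul_pos hd hd'), abs_mul]
    apply div_le_div₀ (by positivity) _ (by norm_num) (by nlinarith)
    exact mul_le_mul hN'b hfst (abs_nonneg _) (by norm_num)
  linarith

theorem adic (s : ℕ) : ∀ n n' : ℕ, n ≡ n' [MOD 3 ^ s] →
    |AA n - AA n'| ≤ 2 * (1 / 10) ^ s ∧ |BB n - BB n'| ≤ 2 * (1 / 10) ^ s := by
  induction s with
  | zero =>
    intro n n' _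
    have h1 := AA_bd n
    have h2 := AA_bd n'
    have h3 := BB_bd n
    have h4 := BB_bd n'
    simp only [pow_zero, mul_one]
    refine ⟨?_, ?_⟩
    · rw [abs_le]; constructor <;> linarith
    · rw [abs_le]; constructor <;> linarith
  | succ s ih =>
    intro n n' hn
    set D : ℝ := 2 * (1 / 10) ^ s with hD
    have hD0 : 0 ≤ D := by positivity
    have hDs : 2 * (1 / 10 : ℝ) ^ (s + 1) = D / 10 := by rw [hD, pow_succ]; ring
    rw [hDs]
    have hmod : n % 3 = n' % 3 := by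
      have : n ≡ n' [MOD 3] := hn.of_dvd (by rw [pow_succ]; exact dvd_mul_left _ _)
      exact this
    have hdiv : n / 3 ≡ n' / 3 [MOD 3 ^ s] := by
      have e1 : n = 3 * (n / 3) + n % 3 := by omega
      have e2 : n' = 3 * (n' / 3) + n % 3 := by omega
      rw [e1, e2] at hn
      have h3 : 3 * (n / 3) ≡ 3 * (n' / 3) [MOD 3 ^ (s + 1)] := Nat.ModEq.add_right_cancel' _ hn
      rw [pow_succ, mul_comm (3 ^ s) 3] at h3
      exact Nat.ModEq.mul_left_cancel' (by norm_num) h3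
    obtain ⟨h1, h2⟩ := st_adic s D hD0 ih _ _ hdiv
    obtain ⟨g1, g2, g3, g4, g5⟩ := st_bd (n / 3)
    obtain ⟨k1, k2, k3, k4, k5⟩ := st_bd (n' / 3)
    rcases (show n % 3 = 0 ∨ n % 3 = 1 ∨ n % 3 = 2 by omega) with h | h | h
    · have e : n = 3 * (n / 3) := by omega
      have e' : n' = 3 * (n' / 3) := by omega
      rw [e, e', AA0, AA0, BB0, BB0]
      refine ⟨by linarith, by simp; positivity⟩
    · have e : n = 3 * (n / 3) + 1 := by omega
      have e' : n' = 3 * (n' / 3) + 1 := by omega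
      rw [e, e', AA1, AA1, BB1, BB1]
      refine ⟨?_, ?_⟩
      · rw [show 2 - (st (n / 3)).1 - (2 - (st (n' / 3)).1) =
          -((st (n / 3)).1 - (st (n' / 3)).1) by ring, abs_neg]
        linarith
      · rw [show - (st (n / 3)).2 - - (st (n' / 3)).2 =
          -((st (n / 3)).2 - (st (n' / 3)).2) by ring, abs_neg]
        linarith
    · have e : n = 3 * (n / 3) + 2 := by omega
      have e' : n' = 3 * (n' / 3) + 2 := by omega
      rw [e, e', AA2, AA2, BB2, BB2]
      refine ⟨?_, by linarith⟩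
      rw [show 1 - (st (n / 3)).2 ^ 2 - (1 - (st (n' / 3)).2 ^ 2) =
          -(((st (n / 3)).2 - (st (n' / 3)).2) * ((st (n / 3)).2 + (st (n' / 3)).2)) by ring,
          abs_neg, abs_mul, abs_of_pos (by linarith : 0 < (st (n / 3)).2 + (st (n' / 3)).2)]
      nlinarith [abs_nonneg ((st (n / 3)).2 - (st (n' / 3)).2)]

end Pool.Agent.H12.GJ
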