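import Mathlib

/-! # Cubic renormalisation of three-term recurrences -/

set_option autoImplicit false

namespace Pool.Agent.H12.GJ

open Polynomial

/-- monic polynomials of a three-term recurrence; `A n = a_n^2` (`n ≥ 1`), `B n = b_{n+1}`. -/
noncomputable def OP (A B : ℕ → ℝ) : ℕ → ℝ[X]
  | 0 => 1
  | 1 => X - C (B 0)
  | n + 2 => (X - C (B (n + 1))) * OP A B (n + 1) - C (A (n + 1)) * OP A B n

variable {A B A' B' : ℕ → ℝ}

lemma OP_zero : OP A B 0 = 1 := by rw [OP]
lemma OP_one : OP A B 1 = X - C (B 0) := by rw [OP]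
lemma OP_succ (n : ℕ) : OP A B (n + 2) =
    (X - C (B (n + 1))) * OP A B (n + 1) - C (A (n + 1)) * OP A B n := by rw [OP]

/-- The cubic renormalisation relations between the coefficients `A', B'` (level one) and
`A, B` (level zero), for the cubic `y = l (x^3 - 3x) + t`. -/
structure Renorm (l t : ℝ) (A' B' A B : ℕ → ℝ) : Prop where
  l0 : l ≠ 0
  hA0 : A 0 = 0
  hB0 : ∀ n, B (3 * n) = 0
  hB1 : ∀ n, B (3 * n + 1) = - B (3 * n + 2)
  hA1 : ∀ n, A (3 * n + 1) = 2 - A (3 * n)
  hA2 : ∀ n, A (3 * n + 2) = 1 - B (3 * n + 2) ^ 2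
  hA3 : ∀ n, l ^ 2 * (A (3 * n + 1) * A (3 * n + 2) * A (3 * n + 3)) = A' (n + 1)
  hR0 : l * (2 * B 2) = t - B' 0
  hR : ∀ n, l * (A (3 * n + 4) * B (3 * n + 5) - A (3 * n + 3) * B (3 * n + 2)) = t - B' (n + 1)

section
variable (l t : ℝ) (A' B' A B : ℕ → ℝ)

/-- the coefficient polynomials of `x`, `x^2 - 2` in `P_{3n+1}` (functions of `y`). -/
noncomputable def sp : ℕ → ℝ[X] × ℝ[X]
  | 0 => (1, 0)
  | n + 1 => (C (l⁻¹ ^ (n + 1)) * OP A' B' (n + 1)
        - C (A (3 * n + 3)) * ((sp n).2 - C (B (3 * n + 1)) * (sp n).1),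
      - C (A (3 * n + 3)) * ((sp n).1 - C (B (3 * n + 1)) * (sp n).2))

end

variable {l t : ℝ}

theorem Renorm.inv (h : Renorm l t A' B' A B) (y : ℝ) (n : ℕ) :
    2 * (sp l A' B' A B n).1.eval y + (y - t) / l * (sp l A' B' A B n).2.eval y =
        A (3 * n + 1) * (l⁻¹ ^ n * (OP A' B' n).eval y) ∧
    2 * ((sp l A' B' A B n).2.eval y - B (3 * n + 1) * (sp l A' B' A B n).1.eval y) +
      (y - t) / l * ((sp l A' B' A B n).1.eval y - B (3 * n + 1) * (sp l A' B' A B n).2.eval y) =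
        l⁻¹ ^ (n + 1) * (OP A' B' (n + 1)).eval y := by
  have hl := h.l0
  induction n with
  | zero =>
    have h1 := h.hA1 0
    have h2 := h.hR0
    have h3 := h.hB1 0
    have h4 := h.hA0
    simp only [mul_zero, zero_add] at h1 h3
    rw [h4, sub_zero] at h1
    refine ⟨?_, ?_⟩
    · simp [sp, OP_zero, h1]
    · have h5 : B 2 = (t - B' 0) / (2 * l) := by
        field_simp
        linarith [h2]
      simp [sp, OP_one, h3, h5]
      field_simp
      ring
  | succ n ih =>
    obtain ⟨i1, i2⟩ := ih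
    have hA1 := h.hA1 (n + 1)
    have hA2 := h.hA2 n
    have hA3 := h.hA3 n
    have hB1 := h.hB1 n
    have hB1' := h.hB1 (n + 1)
    have hR := h.hR n
    have e1 : 3 * (n + 1) = 3 * n + 3 := by ring
    have e2 : 3 * n + 3 + 1 = 3 * n + 4 := by ring
    have e3 : 3 * n + 3 + 2 = 3 * n + 5 := by ring
    rw [e1] at hA1 hB1'
    rw [e2] at hA1 hB1'
    rw [e3] at hB1'
    rw [e1, e2]
    set s1 := (sp l A' B' A B n).1.eval y with hs1
    set s2 := (sp l A' B' A B n).2.eval y with hs2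
    set q := l⁻¹ ^ n * (OP A' B' n).eval y with hq
    set q1 := l⁻¹ ^ (n + 1) * (OP A' B' (n + 1)).eval y with hq1
    have hs1' : (sp l A' B' A B (n + 1)).1.eval y =
        q1 - A (3 * n + 3) * (s2 - B (3 * n + 1) * s1) := by
      simp [sp, hs1, hs2, hq1]
    have hs2' : (sp l A' B' A B (n + 1)).2.eval y =
        - A (3 * n + 3) * (s1 - B (3 * n + 1) * s2) := by
      simp [sp, hs1, hs2]
    have hq2 : l⁻¹ ^ (n + 1 + 1) * (OP A' B' (n + 1 + 1)).eval y =
        (y - B' (n + 1)) / l * q1 - A' (n + 1) / l ^ 2 * q := by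
      rw [OP_succ, hq, hq1]
      simp only [eval_sub, eval_mul, eval_X, eval_C]
      rw [pow_succ, pow_succ]
      field_simp
    rw [hs1', hs2', hq2]
    have hu : (y - t) / l = (y - B' (n + 1)) / l -
        (A (3 * n + 4) * B (3 * n + 5) - A (3 * n + 3) * B (3 * n + 2)) := by
      have : A (3 * n + 4) * B (3 * n + 5) - A (3 * n + 3) * B (3 * n + 2) =
          (t - B' (n + 1)) / l := by
        rw [← hR]; field_simp
      rw [this]; ring
    have hA'e : A' (n + 1) / l ^ 2 = A (3 * n + 1) * A (3 * n + 2) * A (3 * n + 3) := by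
      rw [← hA3]; field_simp
    rw [hA'e]
    set u := (y - t) / l with hudef
    set v := (y - B' (n + 1)) / l with hvdef
    rw [hB1'] 
    have hv : v = u + (A (3 * n + 4) * B (3 * n + 5) - A (3 * n + 3) * B (3 * n + 2)) := by
      rw [hu]; ring
    rw [hv]
    rw [hB1] at i2 ⊢
    refine ⟨?_, ?_⟩
    · linear_combination (-A (3 * n + 3)) * i2 - q1 * hA1
    · have i3 : 2 * s2 + u * s1 = q1 - B (3 * n + 2) * (A (3 * n + 1) * q) := by
        linear_combination i2 - B (3 * n + 2) * i1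
      have i4 : 2 * (s1 + B (3 * n + 2) * s2) + u * (s2 + B (3 * n + 2) * s1) =
          A (3 * n + 2) * (A (3 * n + 1) * q) + B (3 * n + 2) * q1 := by
        linear_combination i1 + B (3 * n + 2) * i3 - (A (3 * n + 1) * q) * hA2
      have i5 : 2 * (q1 - A (3 * n + 3) * (s2 + B (3 * n + 2) * s1)) +
          u * (-A (3 * n + 3) * (s1 + B (3 * n + 2) * s2)) = A (3 * n + 4) * q1 := by
        linear_combination (-A (3 * n + 3)) * i2 - q1 * hA1
      linear_combination (-A (3 * n + 3)) * i4 + B (3 * n + 5) * i5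

theorem Renorm.main (h : Renorm l t A' B' A B) (x : ℝ) (n : ℕ) :
    (OP A B (3 * n)).eval x = l⁻¹ ^ n * (OP A' B' n).eval (l * (x ^ 3 - 3 * x) + t) ∧
    (OP A B (3 * n + 1)).eval x =
      x * (sp l A' B' A B n).1.eval (l * (x ^ 3 - 3 * x) + t) +
      (x ^ 2 - 2) * (sp l A' B' A B n).2.eval (l * (x ^ 3 - 3 * x) + t) ∧
    (OP A B (3 * n + 2)).eval x =
      x * ((sp l A' B' A B n).2 - C (B (3 * n + 1)) * (sp l A' B' A B n).1).eval
        (l * (x ^ 3 - 3 * x) + t) +
      (x ^ 2 - 2) * ((sp l A' B' A B n).1 - C (B (3 * n + 1)) * (sp l A' B' A B n).2).eval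
        (l * (x ^ 3 - 3 * x) + t) := by
  have hl := h.l0
  set y := l * (x ^ 3 - 3 * x) + t with hy
  have hu : (y - t) / l = x ^ 3 - 3 * x := by rw [hy]; field_simp; ring
  -- step from (3n, 3n+1) to 3n+2
  have st : ∀ n, (OP A B (3 * n)).eval x = l⁻¹ ^ n * (OP A' B' n).eval y →
      (OP A B (3 * n + 1)).eval x =
      x * (sp l A' B' A B n).1.eval y + (x ^ 2 - 2) * (sp l A' B' A B n).2.eval y →
      (OP A B (3 * n + 2)).eval x =
      x * ((sp l A' B' A B n).2 - C (B (3 * n + 1)) * (sp l A' B' A B n).1).eval y +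
      (x ^ 2 - 2) * ((sp l A' B' A B n).1 - C (B (3 * n + 1)) * (sp l A' B' A B n).2).eval y := by
    intro n h0 h1
    obtain ⟨i1, i2⟩ := h.inv y n
    rw [hu] at i1 i2
    rw [OP_succ]
    simp only [eval_sub, eval_mul, eval_X, eval_C, h0, h1]
    linear_combination i1
  induction n with
  | zero =>
    have h0 : (OP A B (3 * 0)).eval x = l⁻¹ ^ 0 * (OP A' B' 0).eval y := by
      simp [OP_zero]
    have h1 : (OP A B (3 * 0 + 1)).eval x =
      x * (sp l A' B' A B 0).1.eval y + (x ^ 2 - 2) * (sp l A' B' A B 0).2.eval y := by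
      have := h.hB0 0
      simp only [mul_zero] at this
      simp [OP_one, sp, this]
    exact ⟨h0, h1, st 0 h0 h1⟩
  | succ n ih =>
    obtain ⟨j0, j1, j2⟩ := ih
    obtain ⟨i1, i2⟩ := h.inv y n
    rw [hu] at i1 i2
    have hA2 := h.hA2 n
    have hB1 := h.hB1 n
    have hB0 := h.hB0 (n + 1)
    have e1 : 3 * (n + 1) = 3 * n + 3 := by ring
    rw [e1] at hB0
    have h0 : (OP A B (3 * (n + 1))).eval x = l⁻¹ ^ (n + 1) * (OP A' B' (n + 1)).eval y := by
      have e : 3 * (n + 1) = (3 * n + 1) + 2 := by ring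
      rw [e, OP_succ]
      simp only [eval_sub, eval_mul, eval_X, eval_C] at j2 ⊢
      rw [show 3 * n + 1 + 1 = 3 * n + 2 by ring, j2, j1, ← i2, hB1]
      linear_combination (-(x * (sp l A' B' A B n).1.eval y +
        (x ^ 2 - 2) * (sp l A' B' A B n).2.eval y)) * hA2
    have h1 : (OP A B (3 * (n + 1) + 1)).eval x =
      x * (sp l A' B' A B (n + 1)).1.eval y + (x ^ 2 - 2) * (sp l A' B' A B (n + 1)).2.eval y := by
      have e : 3 * (n + 1) + 1 = (3 * n + 2) + 2 := by ring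
      rw [e, OP_succ, show 3 * n + 2 + 1 = 3 * (n + 1) by ring]
      simp only [eval_sub, eval_mul, eval_X, eval_C] at j2 ⊢
      rw [h0, j2, e1, hB0]
      simp only [sp, eval_sub, eval_mul, eval_X, eval_C, eval_neg]
      ring
    exact ⟨h0, h1, st (n + 1) h0 h1⟩

/-- Block identity (backward). -/
theorem Renorm.back (h : Renorm l t A' B' A B) (x : ℝ) (n : ℕ) :
    (x ^ 2 - 1) * (OP A B (3 * n + 2)).eval x =
      A (3 * n + 1) * A (3 * n + 2) * (OP A B (3 * n)).eval x +
      (x + B (3 * n + 2)) * (OP A B (3 * n + 3)).eval x := by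
  have hA2 := h.hA2 n
  have hB1 := h.hB1 n
  have e1 : (OP A B (3 * n + 3)).eval x = (x - B (3 * n + 2)) * (OP A B (3 * n + 2)).eval x -
      A (3 * n + 2) * (OP A B (3 * n + 1)).eval x := by
    rw [show 3 * n + 3 = (3 * n + 1) + 2 by ring, OP_succ]
    simp only [eval_sub, eval_mul, eval_X, eval_C]
  have e2 : (OP A B (3 * n + 2)).eval x = (x - B (3 * n + 1)) * (OP A B (3 * n + 1)).eval x -
      A (3 * n + 1) * (OP A B (3 * n)).eval x := by
    rw [OP_succ]
    simp only [eval_sub, eval_mul, eval_X, eval_C]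
  rw [hB1] at e2
  rw [e1]
  linear_combination ((OP A B (3 * n + 2)).eval x) * hA2 - A (3 * n + 2) * e2

/-- Block identity (forward). -/
theorem Renorm.forw (h : Renorm l t A' B' A B) (x : ℝ) (n : ℕ) :
    (x ^ 2 - 1) * (OP A B (3 * n + 1)).eval x = (OP A B (3 * n + 3)).eval x +
      A (3 * n + 1) * (x - B (3 * n + 2)) * (OP A B (3 * n)).eval x := by
  have hA2 := h.hA2 n
  have hB1 := h.hB1 n
  have e1 : (OP A B (3 * n + 3)).eval x = (x - B (3 * n + 2)) * (OP A B (3 * n + 2)).eval x -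
      A (3 * n + 2) * (OP A B (3 * n + 1)).eval x := by
    rw [show 3 * n + 3 = (3 * n + 1) + 2 by ring, OP_succ]
    simp only [eval_sub, eval_mul, eval_X, eval_C]
  have e2 : (OP A B (3 * n + 2)).eval x = (x - B (3 * n + 1)) * (OP A B (3 * n + 1)).eval x -
      A (3 * n + 1) * (OP A B (3 * n)).eval x := by
    rw [OP_succ]
    simp only [eval_sub, eval_mul, eval_X, eval_C]
  rw [hB1] at e2
  rw [e1, e2]
  linear_combination ((OP A B (3 * n + 1)).eval x) * hA2

/-- Functionals annihilating `P_k`, `k ≥ 1`, are orthogonality functionals. -/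
theorem orth_of_ann (L : ℝ[X] → ℝ) (hadd : ∀ p q, L (p + q) = L p + L q)
    (hsmul : ∀ (c : ℝ) p, L (C c * p) = c * L p) (h0 : ∀ k, L (OP A B (k + 1)) = 0) :
    ∀ n m, n ≠ m → L (OP A B n * OP A B m) = 0 := by
  have hX : ∀ n (q : ℝ[X]), L (OP A B (n + 1) * (X * q)) = L (OP A B (n + 2) * q) +
      B (n + 1) * L (OP A B (n + 1) * q) + A (n + 1) * L (OP A B n * q) := by
    intro n q
    have : OP A B (n + 1) * (X * q) = OP A B (n + 2) * q +
      (C (B (n + 1)) * (OP A B (n + 1) * q) + C (A (n + 1)) * (OP A B n * q)) := by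
      rw [OP_succ]; ring
    rw [this, hadd, hadd, hsmul, hsmul]; ring
  have key : ∀ m, (∀ n, m < n → L (OP A B n * OP A B m) = 0) ∧
      (∀ n, m + 1 < n → L (OP A B n * OP A B (m + 1)) = 0) := by
    intro m
    induction m with
    | zero =>
      refine ⟨?_, ?_⟩
      · intro n hn
        obtain ⟨k, rfl⟩ := Nat.exists_eq_add_of_lt hn
        rw [OP_zero, mul_one]
        rw [show 0 + k + 1 = k + 1 by ring]
        exact h0 k
      · intro n hn
        obtain ⟨k, rfl⟩ := Nat.exists_eq_add_of_lt hn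
        have e : OP A B (0 + 1 + k + 1) * OP A B (0 + 1) =
            OP A B (k + 1 + 1) * (X * 1) + C (-B 0) * OP A B (k + 1 + 1) := by
          rw [show 0 + 1 + k + 1 = k + 1 + 1 by ring, zero_add, OP_one, C_neg]; ring
        rw [e, hadd, hsmul, hX]
        simp only [mul_one]
        rw [show k + 1 + 2 = (k + 2) + 1 by ring, h0, h0, h0]; ring
    | succ m ih =>
      refine ⟨ih.2, ?_⟩
      intro n hn
      obtain ⟨k, rfl⟩ := Nat.exists_eq_add_of_lt hn
      have e : OP A B (m + 1 + 1 + k + 1) * OP A B (m + 1 + 1) =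
          OP A B (m + 1 + 1 + k + 1) * (X * OP A B (m + 1)) +
          (C (-B (m + 1)) * (OP A B (m + 1 + 1 + k + 1) * OP A B (m + 1)) +
          C (-A (m + 1)) * (OP A B (m + 1 + 1 + k + 1) * OP A B m)) := by
        rw [OP_succ m, C_neg, C_neg]; ring
      rw [e, hadd, hadd, hsmul, hsmul, hX]
      rw [ih.2 _ (by omega), ih.2 _ (by omega), ih.2 _ (by omega), ih.1 _ (by omega)]
      ring
  intro n m hnm
  rcases lt_or_gt_of_ne hnm with h | h
  · rw [mul_comm]; exact (key n).1 m h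
  · exact (key m).1 n h

end Pool.Agent.H12.GJ
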