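import Pool.Agent.H12.GJ.Adic

/-! # Edge values of the orthogonal polynomials of `J_g` -/

set_option autoImplicit false

namespace Pool.Agent.H12.GJ

open Polynomial

/-- `P_n(3/2)` -/
noncomputable def pb (n : ℕ) : ℝ := (OP AA BB n).eval (3 / 2)
/-- `(-1)^n P_n(-19/10)` -/
noncomputable def pa (n : ℕ) : ℝ := (-1) ^ n * (OP AA BB n).eval (-19 / 10)

lemma pb3 (n : ℕ) : pb (3 * n) = (1 / 100) ^ n * pa n := by
  rw [pb, (renorm_g.main (3 / 2) n).1, pa]
  rw [show (-100 : ℝ) * ((3 / 2) ^ 3 - 3 * (3 / 2)) + -572 / 5 = -19 / 10 by norm_num]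
  rw [show ((-100 : ℝ)⁻¹) = (1 / 100) * (-1) by norm_num, mul_pow]
  ring

lemma pa3 (n : ℕ) : pa (3 * n) = (1 / 100) ^ n * pb n := by
  rw [pa, (renorm_g.main (-19 / 10) n).1, pb]
  rw [show (-100 : ℝ) * ((-19 / 10) ^ 3 - 3 * (-19 / 10)) + -572 / 5 = 3 / 2 by norm_num]
  rw [show ((-100 : ℝ)⁻¹) = (1 / 100) * (-1) by norm_num, mul_pow, pow_mul]
  rw [show ((-1 : ℝ) ^ 3) = -1 by norm_num]
  have : ((-1 : ℝ) ^ n) * (-1) ^ n = 1 := by rw [← mul_pow]; norm_num
  linear_combination ((1 / 100) ^ n * eval (3 / 2) (OP AA BB n)) * this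

lemma pb_zero : pb 0 = 1 := by rw [pb, OP_zero]; simp
lemma pa_zero : pa 0 = 1 := by rw [pa, OP_zero]; simp

lemma BBz : BB 0 = 0 := by have := BB0 0; rwa [mul_zero] at this

lemma pb_one : pb 1 = 3 / 2 := by rw [pb, OP_one, BBz]; simp
lemma pa_one : pa 1 = 19 / 10 := by rw [pa, OP_one, BBz]; simp; norm_num

lemma pb_back (n : ℕ) : 5 / 4 * pb (3 * n + 2) = AA (3 * n + 1) * AA (3 * n + 2) * pb (3 * n) +
    (3 / 2 + BB (3 * n + 2)) * pb (3 * n + 3) := by
  have := renorm_g.back (3 / 2) n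
  rw [pb, pb, pb, ← this]; norm_num

lemma pa_back (n : ℕ) : 261 / 100 * pa (3 * n + 2) =
    AA (3 * n + 1) * AA (3 * n + 2) * pa (3 * n) +
    (19 / 10 - BB (3 * n + 2)) * pa (3 * n + 3) := by
  have := renorm_g.back (-19 / 10) n
  rw [pa, pa, pa, pow_add, pow_add]
  linear_combination ((-1) ^ (3 * n)) * this

lemma pb_forw (n : ℕ) : 5 / 4 * pb (3 * n + 1) = pb (3 * n + 3) +
    AA (3 * n + 1) * (3 / 2 - BB (3 * n + 2)) * pb (3 * n) := by
  have := renorm_g.forw (3 / 2) n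
  rw [pb, pb, pb, ← this]; norm_num

lemma pa_forw (n : ℕ) : 261 / 100 * pa (3 * n + 1) = pa (3 * n + 3) +
    AA (3 * n + 1) * (19 / 10 + BB (3 * n + 2)) * pa (3 * n) := by
  have := renorm_g.forw (-19 / 10) n
  rw [pa, pa, pa, pow_add, pow_add]
  linear_combination (-(-1) ^ (3 * n)) * this

theorem p_pos (m : ℕ) : 0 < pb m ∧ 0 < pa m := by
  induction m using Nat.strong_induction_on with
  | _ m ih =>
    have h3 : ∀ n, n < m → 0 < pb (3 * n) ∧ 0 < pa (3 * n) := by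
      intro n hn
      rw [pb3, pa3]
      have := ih n hn
      exact ⟨by have := this.2; positivity, by have := this.1; positivity⟩
    rcases (show m % 3 = 0 ∨ m % 3 = 1 ∨ m % 3 = 2 by omega) with h | h | h
    · by_cases h0 : m = 0
      · rw [h0, pb_zero, pa_zero]; norm_num
      · have e : m = 3 * (m / 3) := by omega
        have := h3 (m / 3) (by omega)
        rwa [← e] at this
    · by_cases h0 : m = 1
      · rw [h0, pb_one, pa_one]; norm_num
      · obtain ⟨n, hn⟩ : ∃ n, m = 3 * n + 1 := ⟨m / 3, by omega⟩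
        rw [hn]
        have k1 := h3 n (by omega)
        have k2 := h3 (n + 1) (by omega)
        rw [show 3 * (n + 1) = 3 * n + 3 by ring] at k2
        have hA := (AA_bd (3 * n + 1)).2.2 (by omega)
        have hB := BB_bd (3 * n + 2)
        have f1 := pb_forw n
        have f2 := pa_forw n
        have m1 : 0 < AA (3 * n + 1) * (3 / 2 - BB (3 * n + 2)) * pb (3 * n) :=
          mul_pos (mul_pos hA (by linarith)) k1.1
        have m2 : 0 < AA (3 * n + 1) * (19 / 10 + BB (3 * n + 2)) * pa (3 * n) :=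
          mul_pos (mul_pos hA (by linarith)) k1.2
        constructor <;> linarith [k2.1, k2.2]
    · obtain ⟨n, hn⟩ : ∃ n, m = 3 * n + 2 := ⟨m / 3, by omega⟩
      rw [hn]
      have k1 := h3 n (by omega)
      have k2 := h3 (n + 1) (by omega)
      rw [show 3 * (n + 1) = 3 * n + 3 by ring] at k2
      have hA := (AA_bd (3 * n + 1)).2.2 (by omega)
      have hA' := (AA_bd (3 * n + 2)).2.2 (by omega)
      have hB := BB_bd (3 * n + 2)
      have f1 := pb_back n
      have f2 := pa_back n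
      have m1 : 0 < AA (3 * n + 1) * AA (3 * n + 2) * pb (3 * n) :=
        mul_pos (mul_pos hA hA') k1.1
      have m2 : 0 < AA (3 * n + 1) * AA (3 * n + 2) * pa (3 * n) :=
        mul_pos (mul_pos hA hA') k1.2
      have m3 : 0 < (3 / 2 + BB (3 * n + 2)) * pb (3 * n + 3) := mul_pos (by linarith) k2.1
      have m4 : 0 < (19 / 10 - BB (3 * n + 2)) * pa (3 * n + 3) := mul_pos (by linarith) k2.2
      constructor <;> linarith

/-- `x_n = P_{n+1}(3/2)/P_n(3/2)` -/
noncomputable def xx (n : ℕ) : ℝ := pb (n + 1) / pb n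
/-- `w_n = -P_{n+1}(-19/10)/P_n(-19/10)` -/
noncomputable def ww (n : ℕ) : ℝ := pa (n + 1) / pa n

lemma xx_pos (n : ℕ) : 0 < xx n := div_pos (p_pos _).1 (p_pos _).1
lemma ww_pos (n : ℕ) : 0 < ww n := div_pos (p_pos _).2 (p_pos _).2

lemma xx_zero : xx 0 = 3 / 2 := by rw [xx, pb_one, pb_zero]; norm_num
lemma ww_zero : ww 0 = 19 / 10 := by rw [ww, pa_one, pa_zero]; norm_num

lemma xx_succ (n : ℕ) : xx (n + 1) = 3 / 2 - BB (n + 1) - AA (n + 1) / xx n := by
  have h1 := (p_pos n).1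
  have h2 := (p_pos (n + 1)).1
  have e : pb (n + 2) = (3 / 2 - BB (n + 1)) * pb (n + 1) - AA (n + 1) * pb n := by
    rw [pb, OP_succ]; simp only [eval_sub, eval_mul, eval_X, eval_C]; rfl
  rw [xx, xx, e]
  field_simp

lemma ww_succ (n : ℕ) : ww (n + 1) = BB (n + 1) + 19 / 10 - AA (n + 1) / ww n := by
  have h1 := (p_pos n).2
  have h2 := (p_pos (n + 1)).2
  have e : pa (n + 2) = (BB (n + 1) + 19 / 10) * pa (n + 1) - AA (n + 1) * pa n := by
    rw [pa, OP_succ]; simp only [eval_sub, eval_mul, eval_X, eval_C, pa]; ring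
  rw [ww, ww, e]
  field_simp

lemma xx_le (n : ℕ) : xx n ≤ 3 := by
  rcases n with _ | n
  · rw [xx_zero]; norm_num
  · rw [xx_succ]
    have := BB_bd (n + 1)
    have h2 := div_nonneg (AA_bd (n + 1)).1 (xx_pos n).le
    linarith

lemma ww_le (n : ℕ) : ww n ≤ 3 := by
  rcases n with _ | n
  · rw [ww_zero]; norm_num
  · rw [ww_succ]
    have := BB_bd (n + 1)
    have h2 := div_nonneg (AA_bd (n + 1)).1 (ww_pos n).le
    linarith

/-- digit `2` step for the reciprocals -/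
lemma xx_digit (n : ℕ) : 5 / 4 * (xx (3 * n + 2))⁻¹ =
    100 * (AA (3 * n + 1) * AA (3 * n + 2)) * (ww n)⁻¹ + (3 / 2 + BB (3 * n + 2)) := by
  have h := pb_back n
  have h0 := (p_pos (3 * n + 2)).1
  have h1 := (p_pos (3 * n + 3)).1
  have h2 := (p_pos n).2
  have h3 := (p_pos (n + 1)).2
  have e1 : pb (3 * n) = (1 / 100) ^ n * pa n := pb3 n
  have e2 : pb (3 * n + 3) = (1 / 100) ^ (n + 1) * pa (n + 1) := by
    rw [show 3 * n + 3 = 3 * (n + 1) by ring]; exact pb3 (n + 1)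
  rw [xx, ww, inv_div, inv_div, show 3 * n + 2 + 1 = 3 * n + 3 by ring, ← mul_div_assoc,
    div_eq_iff h1.ne', h, e1, e2, pow_succ]
  field_simp

lemma ww_digit (n : ℕ) : 261 / 100 * (ww (3 * n + 2))⁻¹ =
    100 * (AA (3 * n + 1) * AA (3 * n + 2)) * (xx n)⁻¹ + (19 / 10 - BB (3 * n + 2)) := by
  have h := pa_back n
  have h0 := (p_pos (3 * n + 2)).2
  have h1 := (p_pos (3 * n + 3)).2
  have h2 := (p_pos n).1
  have h3 := (p_pos (n + 1)).1
  have e1 : pa (3 * n) = (1 / 100) ^ n * pb n := pa3 n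
  have e2 : pa (3 * n + 3) = (1 / 100) ^ (n + 1) * pb (n + 1) := by
    rw [show 3 * n + 3 = 3 * (n + 1) by ring]; exact pa3 (n + 1)
  rw [xx, ww, inv_div, inv_div, show 3 * n + 2 + 1 = 3 * n + 3 by ring, ← mul_div_assoc,
    div_eq_iff h1.ne', h, e1, e2, pow_succ]
  field_simp

/-- `n_s = 3^s - 1` -/
def nn (s : ℕ) : ℕ := 3 ^ s - 1

lemma nn_succ (s : ℕ) : nn (s + 1) = 3 * nn s + 2 := by
  have : 0 < 3 ^ s := by positivity
  rw [nn, nn, pow_succ]; omega

noncomputable def XX (s : ℕ) : ℝ := (xx (nn s))⁻¹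
noncomputable def WW (s : ℕ) : ℝ := (ww (nn s))⁻¹

lemma XX_zero : XX 0 = 2 / 3 := by rw [XX, nn]; simp [xx_zero]
lemma WW_zero : WW 0 = 10 / 19 := by rw [WW, nn]; simp [ww_zero]

lemma step (s : ℕ) : ∃ h u v : ℝ, 130 ≤ h ∧ h ≤ 140 ∧ 2 ≤ u ∧ u ≤ 21 / 10 ∧ 13 / 10 ≤ v ∧
    v ≤ 27 / 20 ∧ 5 / 4 * XX (s + 1) = h * WW s + u ∧ 261 / 100 * WW (s + 1) = h * XX s + v := by
  obtain ⟨g1, g2, g3, g4, g5⟩ := st_bd (nn s)
  refine ⟨100 * (AA (3 * nn s + 1) * AA (3 * nn s + 2)), 3 / 2 + BB (3 * nn s + 2),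
    19 / 10 - BB (3 * nn s + 2), ?_, ?_, ?_, ?_, ?_, ?_, ?_, ?_⟩
  · rw [AA1, AA2]; nlinarith
  · rw [AA1, AA2]; nlinarith
  · rw [BB2]; linarith
  · rw [BB2]; linarith
  · rw [BB2]; linarith
  · rw [BB2]; linarith
  · rw [XX, nn_succ, xx_digit, WW]
  · rw [WW, nn_succ, ww_digit, XX]

lemma growth (s : ℕ) : 1 / 2 * 10 ^ s ≤ XX s ∧ 1 / 2 * 10 ^ s ≤ WW s := by
  induction s with
  | zero => rw [XX_zero, WW_zero]; norm_num
  | succ s ih =>
    obtain ⟨h, u, v, h1, h2, h3, h4, h5, h6, h7, h8⟩ := step s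
    have hp : (0:ℝ) < 10 ^ s := by positivity
    rw [pow_succ]
    constructor
    · nlinarith
    · nlinarith

/-- one step of the ratio recursion -/
lemma ratio_step (X W h u v q : ℝ) (hX : 0 < X) (hW : 0 < W) (hh : 130 ≤ h) (hu : 2 ≤ u)
    (hu2 : u ≤ 21 / 10) (hv : 13 / 10 ≤ v) (hv2 : v ≤ 27 / 20) (hq : q = X / W) (hq2 : q ≤ 2) :
    |(h * X + v) / (h * W + u) - q| ≤ 1 / 28 / W := by
  have hden : 0 < h * W + u := by positivity
  have e : (h * X + v) / (h * W + u) - q = (v * W - u * X) / (W * (h * W + u)) := by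
    rw [hq]; field_simp; ring
  rw [e, abs_div, abs_of_pos (mul_pos hW hden), div_le_div_iff₀ (mul_pos hW hden) hW]
  have hXW : X ≤ 2 * W := by rw [hq, div_le_iff₀ hW] at hq2; exact hq2
  have h1 : |v * W - u * X| ≤ 42 / 10 * W := by rw [abs_le]; constructor <;> nlinarith
  calc |v * W - u * X| * W ≤ 42 / 10 * W * W := by nlinarith
    _ ≤ 1 / 28 * (W * (h * W + u)) := by nlinarith [mul_pos hW hW]

lemma ratio_step' (X W h u v q : ℝ) (hX : 0 < X) (hW : 0 < W) (hh : 130 ≤ h) (hu : 2 ≤ u)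
    (hu2 : u ≤ 21 / 10) (hv : 13 / 10 ≤ v) (hv2 : v ≤ 27 / 20) (hq : q = 261 / 125 * W / X)
    (hq2 : q ≤ 2) :
    |261 / 125 * (h * W + u) / (h * X + v) - q| ≤ 1 / 28 / X := by
  have hden : 0 < h * X + v := by positivity
  have e : 261 / 125 * (h * W + u) / (h * X + v) - q =
      261 / 125 * (u * X - v * W) / (X * (h * X + v)) := by
    rw [hq]; field_simp; ring
  rw [e, abs_div, abs_of_pos (mul_pos hX hden), div_le_div_iff₀ (mul_pos hX hden) hX]
  have hXW : 261 / 125 * W ≤ 2 * X := by rw [hq, div_le_iff₀ hX] at hq2; exact hq2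
  have h1 : |261 / 125 * (u * X - v * W)| ≤ 45 / 10 * X := by
    rw [abs_le]; constructor <;> nlinarith
  calc |261 / 125 * (u * X - v * W)| * X ≤ 45 / 10 * X * X := by nlinarith
    _ ≤ 1 / 28 * (X * (h * X + v)) := by nlinarith [mul_pos hX hX]

theorem ratio (s : ℕ) :
    (Even s → |XX s / WW s - 19 / 15| ≤ 9 / 100 * (1 - (1 / 10) ^ s)) ∧
    (¬ Even s → |261 / 125 * WW s / XX s - 19 / 15| ≤ 9 / 100 * (1 - (1 / 10) ^ s)) := by
  induction s with
  | zero =>
    refine ⟨fun _ => ?_, fun h => absurd (by simp) h⟩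
    rw [XX_zero, WW_zero]; norm_num
  | succ s ih =>
    obtain ⟨h, u, v, h1, h2, h3, h4, h5, h6, h7, h8⟩ := step s
    obtain ⟨k1, k2⟩ := growth s
    have hp : (0:ℝ) < 10 ^ s := by positivity
    have hp' : (0:ℝ) < (1 / 10) ^ s := by positivity
    have hpp : (10:ℝ) ^ s * (1 / 10) ^ s = 1 := by rw [← mul_pow]; norm_num
    have hX : 0 < XX s := by linarith
    have hW : 0 < WW s := by linarith
    have hbound : ∀ Y : ℝ, 1 / 2 * 10 ^ s ≤ Y → 1 / 28 / Y ≤ 9 / 100 * ((1 / 10) ^ s * (9 / 10)) := by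
      intro Y hY
      have hY0 : 0 < Y := by linarith
      rw [div_le_iff₀ hY0]
      have : ((1:ℝ) / 10) ^ s * (9 / 10) * (1 / 2 * (10:ℝ) ^ s) = 9 / 20 := by
        linear_combination (9 / 20) * hpp
      nlinarith
    have eX : XX (s + 1) = (h * WW s + u) / (5 / 4) := by rw [← h7]; field_simp
    have eW : WW (s + 1) = (h * XX s + v) / (261 / 100) := by rw [← h8]; field_simp
    have hd1 : 0 < h * WW s + u := by positivity
    have hd2 : 0 < h * XX s + v := by positivity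
    rw [pow_succ]
    by_cases hs : Even s
    · have hs' : ¬ Even (s + 1) := by
        intro hc; rw [Nat.even_add_one] at hc; exact hc hs
      refine ⟨fun hc => absurd hc hs', fun _ => ?_⟩
      have i1 := ih.1 hs
      have hq2 : XX s / WW s ≤ 2 := by
        rw [abs_le] at i1; linarith [i1.2]
      have r1 := ratio_step (XX s) (WW s) h u v _ hX hW h1 h3 h4 h5 h6 rfl hq2
      have e : 261 / 125 * WW (s + 1) / XX (s + 1) = (h * XX s + v) / (h * WW s + u) := by
        rw [eX, eW]; field_simp; norm_num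
      rw [e]
      have r2 := hbound (WW s) k2
      have r3 := abs_sub_le ((h * XX s + v) / (h * WW s + u)) (XX s / WW s) (19 / 15)
      linarith
    · have hs' : Even (s + 1) := by
        rw [Nat.even_add_one]; exact hs
      refine ⟨fun _ => ?_, fun hc => absurd hs' hc⟩
      have i1 := ih.2 hs
      have hq2 : 261 / 125 * WW s / XX s ≤ 2 := by
        rw [abs_le] at i1; linarith [i1.2]
      have r1 := ratio_step' (XX s) (WW s) h u v _ hX hW h1 h3 h4 h5 h6 rfl hq2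
      have e : XX (s + 1) / WW (s + 1) = 261 / 125 * (h * WW s + u) / (h * XX s + v) := by
        rw [eX, eW]; field_simp; norm_num
      rw [e]
      have r2 := hbound (XX s) k1
      have r3 := abs_sub_le (261 / 125 * (h * WW s + u) / (h * XX s + v))
        (261 / 125 * WW s / XX s) (19 / 15)
      linarith

end Pool.Agent.H12.GJ
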