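import Pool.Agent.H12.GJ.Tail

/-! # The coefficients `b_n` are not asymptotically almost periodic -/

set_option autoImplicit false

namespace Pool.Agent.H12.GJ

open Filter Topology

lemma not_aap_of (b : ℕ → ℝ) (N : ℕ → ℕ) (hN : Tendsto N atTop atTop) (δ : ℝ) (hδ : 0 < δ)
    (hsep : ∀ s, δ ≤ |b (N (s + 1)) - b (N s)|)
    (htail : ∀ j, 1 ≤ j → ∃ l : ℝ, Tendsto (fun s => b (N s - j)) atTop (𝓝 l)) :
    ¬ ∃ β : ℤ → ℝ, (∀ ε > 0, ∃ L : ℕ, ∀ m : ℤ, ∃ τ : ℤ, m ≤ τ ∧ τ ≤ m + (L : ℤ) ∧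
      ∀ k : ℤ, |β (k + τ) - β k| < ε) ∧
      Tendsto (fun n : ℕ => |b n - β (n : ℤ)|) atTop (𝓝 0) := by
  rintro ⟨β, hβ, hlim⟩
  obtain ⟨L, hL⟩ := hβ (δ / 4) (by positivity)
  obtain ⟨τ, h1, h2, h3⟩ := hL (-(L : ℤ) - 1)
  obtain ⟨j, hj⟩ : ∃ j : ℕ, τ = -(j : ℤ) := ⟨(-τ).toNat, by omega⟩
  have hj1 : 1 ≤ j := by omega
  obtain ⟨l, hl⟩ := htail j hj1
  have hNj : Tendsto (fun s => N s - j) atTop atTop := by
    rw [tendsto_atTop] at hN ⊢
    intro c
    filter_upwards [hN (c + j)] with s hs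
    omega
  have e1 : ∀ᶠ s in atTop, |b (N s) - β (N s : ℤ)| < δ / 16 := by
    have := (hlim.comp hN).eventually (gt_mem_nhds (show (0:ℝ) < δ / 16 by positivity))
    filter_upwards [this] with s hs
    exact hs
  have e2 : ∀ᶠ s in atTop, |b (N s - j) - β ((N s - j : ℕ) : ℤ)| < δ / 16 := by
    have := (hlim.comp hNj).eventually (gt_mem_nhds (show (0:ℝ) < δ / 16 by positivity))
    filter_upwards [this] with s hs
    exact hs
  have e3 : ∀ᶠ s in atTop, |b (N s - j) - l| < δ / 16 := by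
    have := Metric.tendsto_nhds.mp hl (δ / 16) (by positivity)
    filter_upwards [this] with s hs
    rwa [Real.dist_eq] at hs
  have e4 : ∀ᶠ s in atTop, j ≤ N s := (tendsto_atTop.mp hN) j
  have key : ∀ᶠ s in atTop, |b (N s) - l| < δ / 2 := by
    filter_upwards [e1, e2, e3, e4] with s a1 a2 a3 a4
    have h5 := h3 (N s : ℤ)
    have h6 : (N s : ℤ) + τ = ((N s - j : ℕ) : ℤ) := by
      rw [hj, Nat.cast_sub a4]; ring
    rw [h6] at h5
    rw [abs_lt] at a1 a2 a3 h5 ⊢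
    constructor <;> linarith [a1.1, a1.2, a2.1, a2.2, a3.1, a3.2, h5.1, h5.2]
  have key' : ∀ᶠ s in atTop, |b (N (s + 1)) - l| < δ / 2 :=
    (tendsto_add_atTop_nat 1).eventually key
  obtain ⟨s, hs, hs'⟩ := (key.and key').exists
  have h7 := hsep s
  have h8 : |b (N (s + 1)) - b (N s)| < δ := by
    rw [abs_lt] at hs hs' ⊢
    constructor <;> linarith [hs.1, hs.2, hs'.1, hs'.2]
  linarith

/-- `N_s = 3^{s+1} - 2` (0-indexed). -/
def Ns (s : ℕ) : ℕ := 3 * nn s + 1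

lemma B0_Ns (s : ℕ) : B0 (Ns s) = (XX s - WW s) / (XX s + WW s) := by
  rw [Ns, B01, XX, WW]
  have h1 := xx_pos (nn s); have h2 := ww_pos (nn s)
  field_simp

lemma B0_even (s : ℕ) (hs : Even s) : B0 (Ns s) ≤ 4 / 25 := by
  rw [B0_Ns]
  obtain ⟨k1, k2⟩ := growth s
  have hp : (0:ℝ) < 10 ^ s := by positivity
  have hp' : (0:ℝ) < (1 / 10) ^ s := by positivity
  have hX : 0 < XX s := by linarith
  have hW : 0 < WW s := by linarith
  have h1 := (ratio s).1 hs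
  have h2 : XX s / WW s ≤ 19 / 15 + 9 / 100 := by
    rw [abs_le] at h1; linarith [h1.2]
  rw [div_le_iff₀ hW] at h2
  rw [div_le_iff₀ (by positivity)]
  linarith

lemma B0_odd (s : ℕ) (hs : ¬ Even s) : 21 / 100 ≤ B0 (Ns s) := by
  rw [B0_Ns]
  obtain ⟨k1, k2⟩ := growth s
  have hp : (0:ℝ) < 10 ^ s := by positivity
  have hp' : (0:ℝ) < (1 / 10) ^ s := by positivity
  have hX : 0 < XX s := by linarith
  have hW : 0 < WW s := by linarith
  have h1 := (ratio s).2 hs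
  have h2 : 261 / 125 * WW s / XX s ≤ 19 / 15 + 9 / 100 := by
    rw [abs_le] at h1; linarith [h1.2]
  rw [div_le_iff₀ hX] at h2
  rw [le_div_iff₀ (by positivity)]
  linarith

lemma B0_sep (s : ℕ) : 1 / 20 ≤ |B0 (Ns (s + 1)) - B0 (Ns s)| := by
  by_cases hs : Even s
  · have hs' : ¬ Even (s + 1) := by
      intro hc; rw [Nat.even_add_one] at hc; exact hc hs
    have h1 := B0_even s hs
    have h2 := B0_odd (s + 1) hs'
    rw [abs_of_nonneg (by linarith)]; linarith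
  · have hs' : Even (s + 1) := by
      rw [Nat.even_add_one]; exact hs
    have h1 := B0_odd s hs
    have h2 := B0_even (s + 1) hs'
    rw [abs_of_nonpos (by linarith)]; linarith

lemma Ns_tendsto : Tendsto Ns atTop atTop := by
  apply tendsto_atTop_mono (fun s => ?_) tendsto_id
  have h1 : s < 3 ^ s := Nat.lt_pow_self (by norm_num)
  simp only [id, Ns, nn]
  omega

lemma B0_tail (j : ℕ) (hj : 1 ≤ j) : ∃ l : ℝ, Tendsto (fun s => B0 (Ns s - j)) atTop (𝓝 l) := by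
  rcases (show j % 3 = 1 ∨ ∃ k, j = 3 * k + 2 ∨ j = 3 * k + 3 by
    rcases (show j % 3 = 0 ∨ j % 3 = 1 ∨ j % 3 = 2 by omega) with h | h | h
    · exact Or.inr ⟨j / 3 - 1, Or.inr (by omega)⟩
    · exact Or.inl h
    · exact Or.inr ⟨j / 3, Or.inl (by omega)⟩) with h | ⟨k, h | h⟩
  · refine ⟨0, Tendsto.congr' ?_ tendsto_const_nhds⟩
    filter_upwards [eventually_ge_atTop j] with s hs
    have h1 : s < 3 ^ s := Nat.lt_pow_self (by norm_num)
    have e : Ns s - j = 3 * ((Ns s - j) / 3) := by simp only [Ns, nn]; omega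
    rw [e, B00]
  · obtain ⟨lx, hlx, tx⟩ := xx_tail k
    obtain ⟨lw, hlw, tw⟩ := ww_tail k
    refine ⟨(lx - lw) / (lx + lw), Tendsto.congr' ?_
      ((tx.sub tw).div (tx.add tw) (by positivity))⟩
    filter_upwards [eventually_ge_atTop (j + 3)] with s hs
    have h1 : s < 3 ^ s := Nat.lt_pow_self (by norm_num)
    have e : Ns s - j = 3 * (3 ^ s - (k + 2)) + 2 := by simp only [Ns, nn]; omega
    rw [e, B02]; rfl
  · obtain ⟨lx, hlx, tx⟩ := xx_tail k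
    obtain ⟨lw, hlw, tw⟩ := ww_tail k
    refine ⟨(lw - lx) / (lw + lx), Tendsto.congr' ?_
      ((tw.sub tx).div (tw.add tx) (by positivity))⟩
    filter_upwards [eventually_ge_atTop (j + 3)] with s hs
    have h1 : s < 3 ^ s := Nat.lt_pow_self (by norm_num)
    have e : Ns s - j = 3 * (3 ^ s - (k + 2)) + 1 := by simp only [Ns, nn]; omega
    rw [e, B01]; rfl

theorem B0_not_aap : ¬ ∃ β : ℤ → ℝ, (∀ ε > 0, ∃ L : ℕ, ∀ m : ℤ, ∃ τ : ℤ, m ≤ τ ∧ τ ≤ m + (L : ℤ) ∧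
      ∀ k : ℤ, |β (k + τ) - β k| < ε) ∧
      Tendsto (fun n : ℕ => |B0 n - β (n : ℤ)|) atTop (𝓝 0) :=
  not_aap_of B0 Ns Ns_tendsto (1 / 20) (by norm_num) B0_sep B0_tail

end Pool.Agent.H12.GJ
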