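import Pool.Agent.H12.GJ.Alg

/-! # The Jacobi parameters of the Julia set of `g` -/

set_option autoImplicit false

namespace Pool.Agent.H12.GJ

open Polynomial

/-- state of block `n`: `(A (3n), B (3n+2))`. -/
noncomputable def st : ℕ → ℝ × ℝ
  | 0 => (0, 143 / 250)
  | n + 1 =>
    let a : ℝ := if (n + 1) % 3 = 0 then (st ((n + 1) / 3)).1
      else if (n + 1) % 3 = 1 then 2 - (st ((n + 1) / 3)).1 else 1 - (st ((n + 1) / 3)).2 ^ 2
    let b : ℝ := if (n + 1) % 3 = 0 then 0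
      else if (n + 1) % 3 = 1 then - (st ((n + 1) / 3)).2 else (st ((n + 1) / 3)).2
    (a / (10000 * ((2 - (st n).1) * (1 - (st n).2 ^ 2))),
      (143 / 125 + b / 100 +
        (a / (10000 * ((2 - (st n).1) * (1 - (st n).2 ^ 2)))) * (st n).2) /
      (2 - a / (10000 * ((2 - (st n).1) * (1 - (st n).2 ^ 2)))))
termination_by n => n
decreasing_by all_goals omega

/-- `A n = a_n^2` for `J_g`. -/
noncomputable def AA (n : ℕ) : ℝ := if n % 3 = 0 then (st (n / 3)).1
      else if n % 3 = 1 then 2 - (st (n / 3)).1 else 1 - (st (n / 3)).2 ^ 2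

/-- `B n = b_{n+1}` for `J_g`. -/
noncomputable def BB (n : ℕ) : ℝ := if n % 3 = 0 then 0
      else if n % 3 = 1 then - (st (n / 3)).2 else (st (n / 3)).2

lemma AA0 (n : ℕ) : AA (3 * n) = (st n).1 := by
  rw [AA, if_pos (by omega), show 3 * n / 3 = n by omega]
lemma AA1 (n : ℕ) : AA (3 * n + 1) = 2 - (st n).1 := by
  rw [AA, if_neg (by omega), if_pos (by omega), show (3 * n + 1) / 3 = n by omega]
lemma AA2 (n : ℕ) : AA (3 * n + 2) = 1 - (st n).2 ^ 2 := by
  rw [AA, if_neg (by omega), if_neg (by omega), show (3 * n + 2) / 3 = n by omega]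
lemma BB0 (n : ℕ) : BB (3 * n) = 0 := by
  rw [BB, if_pos (by omega)]
lemma BB1 (n : ℕ) : BB (3 * n + 1) = - (st n).2 := by
  rw [BB, if_neg (by omega), if_pos (by omega), show (3 * n + 1) / 3 = n by omega]
lemma BB2 (n : ℕ) : BB (3 * n + 2) = (st n).2 := by
  rw [BB, if_neg (by omega), if_neg (by omega), show (3 * n + 2) / 3 = n by omega]

lemma st_zero : st 0 = (0, 143 / 250) := by rw [st]

lemma st_succ_fst (n : ℕ) : (st (n + 1)).1 =
    AA (n + 1) / (10000 * ((2 - (st n).1) * (1 - (st n).2 ^ 2))) := by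
  rw [st]; rfl

lemma st_succ_snd (n : ℕ) : (st (n + 1)).2 =
    (143 / 125 + BB (n + 1) / 100 + (st (n + 1)).1 * (st n).2) / (2 - (st (n + 1)).1) := by
  rw [st_succ_fst]
  rw [st]; rfl

/-- basic bounds -/
lemma st_bd (n : ℕ) : 0 ≤ (st n).1 ∧ (st n).1 ≤ 1 / 5000 ∧ 14 / 25 ≤ (st n).2 ∧
    (st n).2 ≤ 29 / 50 ∧ (0 < n → 0 < (st n).1) := by
  induction n using Nat.strong_induction_on with
  | _ n ih =>
    rcases n with _ | n
    · rw [st_zero]; norm_num
    · have h1 := ih n (by omega)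
      have hAB : (0 < AA (n + 1) ∧ AA (n + 1) ≤ 2) ∧ |BB (n + 1)| ≤ 29 / 50 := by
        have h2 := ih ((n + 1) / 3) (by omega)
        rcases (show (n + 1) % 3 = 0 ∨ (n + 1) % 3 = 1 ∨ (n + 1) % 3 = 2 by omega) with h | h | h
        · have e : n + 1 = 3 * ((n + 1) / 3) := by omega
          rw [e, AA0, BB0]
          refine ⟨⟨h2.2.2.2.2 (by omega), by linarith [h2.2.1]⟩, by norm_num⟩
        · have e : n + 1 = 3 * ((n + 1) / 3) + 1 := by omega
          rw [e, AA1, BB1]
          rw [abs_le]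
          refine ⟨⟨by linarith [h2.2.1], by linarith [h2.1]⟩, by linarith [h2.2.2.2.1],
            by linarith [h2.2.2.1]⟩
        · have e : n + 1 = 3 * ((n + 1) / 3) + 2 := by omega
          rw [e, AA2, BB2]
          rw [abs_le]
          refine ⟨⟨by nlinarith [h2.2.2.1, h2.2.2.2.1], by nlinarith [h2.2.2.1, h2.2.2.2.1]⟩,
            by linarith [h2.2.2.1], h2.2.2.2.1⟩
      obtain ⟨⟨hA1, hA2⟩, hB⟩ := hAB
      rw [abs_le] at hB
      obtain ⟨g1, g2, g3, g4, g5⟩ := h1
      have hD1 : (12000 : ℝ) < 10000 * ((2 - (st n).1) * (1 - (st n).2 ^ 2)) := by nlinarith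
      have hf := st_succ_fst n
      have hs := st_succ_snd n
      have hf1 : 0 < (st (n + 1)).1 := by rw [hf]; positivity
      have hf2 : (st (n + 1)).1 ≤ 1 / 5000 := by
        rw [hf, div_le_iff₀ (by linarith)]; linarith
      refine ⟨hf1.le, hf2, ?_, ?_, fun _ => hf1⟩
      · rw [hs, le_div_iff₀ (by linarith)]
        nlinarith
      · rw [hs, div_le_iff₀ (by linarith)]
        nlinarith

lemma AA_bd (n : ℕ) : 0 ≤ AA n ∧ AA n ≤ 2 ∧ (0 < n → 0 < AA n) := by
  have h2 := st_bd (n / 3)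
  rcases (show n % 3 = 0 ∨ n % 3 = 1 ∨ n % 3 = 2 by omega) with h | h | h
  · have e : n = 3 * (n / 3) := by omega
    rw [e, AA0]
    refine ⟨h2.1, by linarith [h2.2.1], fun hn => h2.2.2.2.2 (by omega)⟩
  · have e : n = 3 * (n / 3) + 1 := by omega
    rw [e, AA1]
    refine ⟨by linarith [h2.2.1], by linarith [h2.1], fun _ => by linarith [h2.2.1]⟩
  · have e : n = 3 * (n / 3) + 2 := by omega
    rw [e, AA2]
    refine ⟨by nlinarith [h2.2.2.1, h2.2.2.2.1], by nlinarith [h2.2.2.1, h2.2.2.2.1],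
      fun _ => by nlinarith [h2.2.2.1, h2.2.2.2.1]⟩

lemma BB_bd (n : ℕ) : -(29 / 50) ≤ BB n ∧ BB n ≤ 29 / 50 := by
  have h2 := st_bd (n / 3)
  rcases (show n % 3 = 0 ∨ n % 3 = 1 ∨ n % 3 = 2 by omega) with h | h | h
  · have e : n = 3 * (n / 3) := by omega
    rw [e, BB0]
    norm_num
  · have e : n = 3 * (n / 3) + 1 := by omega
    rw [e, BB1]
    refine ⟨by linarith [h2.2.2.2.1], by linarith [h2.2.2.1]⟩
  · have e : n = 3 * (n / 3) + 2 := by omega
    rw [e, BB2]
    refine ⟨by linarith [h2.2.2.1], h2.2.2.2.1⟩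

/-- `J_g` parameters are a fixed point of the renormalisation. -/
theorem renorm_g : Renorm (-100) (-572 / 5) AA BB AA BB where
  l0 := by norm_num
  hA0 := by
    have := AA0 0
    rw [mul_zero, st_zero] at this
    exact this
  hB0 := BB0
  hB1 := fun n => by rw [BB1, BB2]
  hA1 := fun n => by rw [AA1, AA0]
  hA2 := fun n => by rw [AA2, BB2]
  hA3 := fun n => by
    obtain ⟨g1, g2, g3, g4, g5⟩ := st_bd n
    rw [AA1, AA2, show 3 * n + 3 = 3 * (n + 1) by ring, AA0, st_succ_fst]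
    have h1 : (2 - (st n).1) ≠ 0 := by intro h; linarith
    have h2 : (1 - (st n).2 ^ 2) ≠ 0 := by intro h; nlinarith
    field_simp
    ring
  hR0 := by
    have := BB2 0
    rw [mul_zero, st_zero] at this
    simp only [zero_add] at this
    have h0 := BB0 0
    rw [mul_zero] at h0
    rw [this, h0]; norm_num
  hR := fun n => by
    obtain ⟨g1, g2, g3, g4, g5⟩ := st_bd (n + 1)
    rw [show 3 * n + 4 = 3 * (n + 1) + 1 by ring, show 3 * n + 5 = 3 * (n + 1) + 2 by ring,
      show 3 * n + 3 = 3 * (n + 1) by ring, AA1, AA0, BB2, BB2]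
    have hs := st_succ_snd n
    have h1 : (2 - (st (n + 1)).1) ≠ 0 := by intro h; linarith
    rw [eq_div_iff h1] at hs
    linear_combination (-100) * hs

end Pool.Agent.H12.GJ
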