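import Pool.Agent.H12.GJ.Edge

/-! # Limits of the coefficients before index `3^s` -/

set_option autoImplicit false

namespace Pool.Agent.H12.GJ

open Filter Topology

lemma AA_lower (v : ℕ) : ∃ c : ℝ, 0 < c ∧ ∀ m : ℕ, ¬ (3 ^ v ∣ m) → c ≤ AA m := by
  induction v with
  | zero => exact ⟨1, one_pos, fun m hm => absurd (by simp) hm⟩
  | succ v ih =>
    obtain ⟨c, hc, h⟩ := ih
    refine ⟨min (1 / 2) (c / 20000), by positivity, fun m hm => ?_⟩
    obtain ⟨g1, g2, g3, g4, g5⟩ := st_bd (m / 3)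
    rcases (show m % 3 = 0 ∨ m % 3 = 1 ∨ m % 3 = 2 by omega) with h0 | h0 | h0
    · obtain ⟨k, hk⟩ : ∃ k, m = 3 * k := ⟨m / 3, by omega⟩
      have hk' : ¬ (3 ^ v ∣ k) := by
        intro hd; apply hm; rw [hk, pow_succ, mul_comm]; exact mul_dvd_mul_left 3 hd
      rcases k with _ | k
      · exact absurd (dvd_zero _) hk'
      · rw [hk, AA0, st_succ_fst]
        obtain ⟨g1, g2, g3, g4, g5⟩ := st_bd k
        refine (min_le_right _ _).trans ?_
        have := h _ hk'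
        have hq : (0:ℝ) < 10000 * ((2 - (st k).1) * (1 - (st k).2 ^ 2)) := by nlinarith
        apply div_le_div₀ (by linarith) this hq
        nlinarith
    · have e : m = 3 * (m / 3) + 1 := by omega
      rw [e, AA1]
      exact (min_le_left _ _).trans (by linarith)
    · have e : m = 3 * (m / 3) + 2 := by omega
      rw [e, AA2]
      exact (min_le_left _ _).trans (by nlinarith)

lemma modEq_tail (S s t j : ℕ) (hs : S ≤ s) (ht : S ≤ t) (hj : j ≤ 3 ^ S) :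
    3 ^ s - j ≡ 3 ^ t - j [MOD 3 ^ S] := by
  have h1 : 3 ^ S ≤ 3 ^ s := Nat.pow_le_pow_right (by norm_num) hs
  have h2 : 3 ^ S ≤ 3 ^ t := Nat.pow_le_pow_right (by norm_num) ht
  have d1 : 3 ^ S ∣ 3 ^ s := pow_dvd_pow 3 hs
  have d2 : 3 ^ S ∣ 3 ^ t := pow_dvd_pow 3 ht
  apply Nat.ModEq.add_right_cancel' j
  rw [Nat.sub_add_cancel (hj.trans h1), Nat.sub_add_cancel (hj.trans h2)]
  exact ((Nat.modEq_zero_iff_dvd.mpr d1).trans (Nat.modEq_zero_iff_dvd.mpr d2).symm)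

lemma tail_exists (f : ℕ → ℝ)
    (hf : ∀ s n n' : ℕ, n ≡ n' [MOD 3 ^ s] → |f n - f n'| ≤ 2 * (1 / 10) ^ s) (j : ℕ) :
    ∃ l : ℝ, Tendsto (fun s : ℕ => f (3 ^ s - j)) atTop (𝓝 l) := by
  apply cauchySeq_tendsto_of_complete
  rw [Metric.cauchySeq_iff']
  intro ε hε
  obtain ⟨N, hN⟩ := exists_pow_lt_of_lt_one (show 0 < ε / 2 by positivity)
    (show (1 / 10 : ℝ) < 1 by norm_num)
  obtain ⟨M, hM⟩ : ∃ M : ℕ, j ≤ 3 ^ M := ⟨j, Nat.lt_pow_self (by norm_num) |>.le⟩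
  refine ⟨max N M, fun n hn => ?_⟩
  rw [Real.dist_eq]
  have h1 := hf (max N M) _ _ (modEq_tail (max N M) n (max N M) j hn le_rfl
    (hM.trans (Nat.pow_le_pow_right (by norm_num) (le_max_right _ _))))
  refine lt_of_le_of_lt h1 ?_
  have h2 : (1 / 10 : ℝ) ^ (max N M) ≤ (1 / 10) ^ N :=
    pow_le_pow_of_le_one (by norm_num) (by norm_num) (le_max_left _ _)
  linarith

lemma AA_tail (j : ℕ) (hj : 0 < j) :
    ∃ l : ℝ, 0 < l ∧ Tendsto (fun s : ℕ => AA (3 ^ s - j)) atTop (𝓝 l) := by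
  obtain ⟨l, hl⟩ := tail_exists AA (fun s n n' h => (adic s n n' h).1) j
  refine ⟨l, ?_, hl⟩
  obtain ⟨v, hv⟩ : ∃ v : ℕ, j < 3 ^ v := ⟨j, Nat.lt_pow_self (by norm_num)⟩
  obtain ⟨c, hc, h⟩ := AA_lower v
  refine lt_of_lt_of_le hc (ge_of_tendsto hl ?_)
  filter_upwards [eventually_ge_atTop v] with s hs
  apply h
  intro hd
  have h1 : 3 ^ v ≤ 3 ^ s := Nat.pow_le_pow_right (by norm_num) hs
  have h2 : 3 ^ v ∣ 3 ^ s := pow_dvd_pow 3 hs
  have h3 : 3 ^ v ∣ 3 ^ s - (3 ^ s - j) := Nat.dvd_sub h2 hd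
  rw [Nat.sub_sub_self (by omega)] at h3
  exact absurd (Nat.le_of_dvd hj h3) (by omega)

lemma BB_tail (j : ℕ) : ∃ l : ℝ, Tendsto (fun s : ℕ => BB (3 ^ s - j)) atTop (𝓝 l) :=
  tail_exists BB (fun s n n' h => (adic s n n' h).2) j

/-- generic backward limit -/
lemma back_tail (f A : ℕ → ℝ) (B : ℕ → ℝ) (hf : ∀ n, 0 < f n) (hf3 : ∀ n, f n ≤ 3)
    (hrec : ∀ n, f (n + 1) = B (n + 1) - A (n + 1) / f n)
    (hA : ∀ j, 0 < j → ∃ l : ℝ, 0 < l ∧ Tendsto (fun s : ℕ => A (3 ^ s - j)) atTop (𝓝 l))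
    (hB : ∀ j, ∃ l : ℝ, Tendsto (fun s : ℕ => B (3 ^ s - j)) atTop (𝓝 l))
    (h0 : Tendsto (fun s : ℕ => f (3 ^ s - 1)) atTop (𝓝 0)) (k : ℕ) :
    ∃ l : ℝ, 0 < l ∧ Tendsto (fun s : ℕ => f (3 ^ s - (k + 2))) atTop (𝓝 l) := by
  have step : ∀ k : ℕ, (∃ l : ℝ, Tendsto (fun s : ℕ => f (3 ^ s - (k + 1))) atTop (𝓝 l)) →
      ∃ l : ℝ, 0 < l ∧ Tendsto (fun s : ℕ => f (3 ^ s - (k + 2))) atTop (𝓝 l) := by
    intro k ⟨l, hl⟩
    obtain ⟨a, ha, hat⟩ := hA (k + 1) (by omega)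
    obtain ⟨b, hbt⟩ := hB (k + 1)
    have hev : ∀ᶠ s : ℕ in atTop, f (3 ^ s - (k + 2)) =
        A (3 ^ s - (k + 1)) / (B (3 ^ s - (k + 1)) - f (3 ^ s - (k + 1))) ∧
        A (3 ^ s - (k + 1)) / 3 ≤ B (3 ^ s - (k + 1)) - f (3 ^ s - (k + 1)) := by
      filter_upwards [eventually_ge_atTop (k + 2), (hat.eventually (lt_mem_nhds ha))] with s hs hApos
      have h1 : k + 2 < 3 ^ s := lt_of_le_of_lt hs (Nat.lt_pow_self (by norm_num))
      have e : 3 ^ s - (k + 1) = (3 ^ s - (k + 2)) + 1 := by omega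
      have hr := hrec (3 ^ s - (k + 2))
      rw [← e] at hr
      have hp := hf (3 ^ s - (k + 2))
      have e2 : B (3 ^ s - (k + 1)) - f (3 ^ s - (k + 1)) =
          A (3 ^ s - (k + 1)) / f (3 ^ s - (k + 2)) := by rw [hr]; ring
      rw [e2]
      refine ⟨?_, ?_⟩
      · field_simp
      · exact div_le_div_of_nonneg_left hApos.le hp (hf3 _)
    have hD : Tendsto (fun s : ℕ => B (3 ^ s - (k + 1)) - f (3 ^ s - (k + 1))) atTop (𝓝 (b - l)) :=
      hbt.sub hl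
    have hDpos : a / 3 ≤ b - l := by
      refine le_of_tendsto_of_tendsto (hat.div_const 3) hD ?_
      filter_upwards [hev] with s hs
      exact hs.2
    have hDpos' : 0 < b - l := lt_of_lt_of_le (by positivity) hDpos
    refine ⟨a / (b - l), by positivity, ?_⟩
    refine Tendsto.congr' ?_ (hat.div hD hDpos'.ne')
    filter_upwards [hev] with s hs
    exact hs.1.symm
  induction k with
  | zero => exact step 0 ⟨0, h0⟩
  | succ k ih => obtain ⟨l, _, hl⟩ := ih; exact step (k + 1) ⟨l, hl⟩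

lemma inv_pow_tendsto (c : ℝ) : Tendsto (fun s : ℕ => c * (1 / 10 : ℝ) ^ s) atTop (𝓝 0) := by
  have h1 : Tendsto (fun s : ℕ => (1 / 10 : ℝ) ^ s) atTop (𝓝 0) :=
    tendsto_pow_atTop_nhds_zero_of_lt_one (by norm_num) (by norm_num)
  simpa using h1.const_mul c

lemma small_of_growth (y : ℝ) (s : ℕ) (hy : 0 < y) (h : 1 / 2 * 10 ^ s ≤ y⁻¹) :
    y ≤ 2 * (1 / 10) ^ s := by
  have hp : (0:ℝ) < 10 ^ s := by positivity
  have h1 : y * (1 / 2 * 10 ^ s) ≤ 1 := by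
    calc y * (1 / 2 * 10 ^ s) ≤ y * y⁻¹ := mul_le_mul_of_nonneg_left h hy.le
      _ = 1 := mul_inv_cancel₀ hy.ne'
  have hpp : (10:ℝ) ^ s * (1 / 10) ^ s = 1 := by rw [← mul_pow]; norm_num
  have hp' : (0:ℝ) < (1 / 10) ^ s := by positivity
  calc y = y * ((10:ℝ) ^ s * (1 / 10) ^ s) := by rw [hpp, mul_one]
    _ = y * (1 / 2 * 10 ^ s) * (2 * (1 / 10) ^ s) := by ring
    _ ≤ 1 * (2 * (1 / 10) ^ s) := mul_le_mul_of_nonneg_right h1 (by positivity)
    _ = 2 * (1 / 10) ^ s := by ring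

lemma xx_tail0 : Tendsto (fun s : ℕ => xx (3 ^ s - 1)) atTop (𝓝 0) := by
  refine squeeze_zero (fun s => (xx_pos _).le) (fun s => ?_) (inv_pow_tendsto 2)
  exact small_of_growth _ s (xx_pos _) (growth s).1

lemma ww_tail0 : Tendsto (fun s : ℕ => ww (3 ^ s - 1)) atTop (𝓝 0) := by
  refine squeeze_zero (fun s => (ww_pos _).le) (fun s => ?_) (inv_pow_tendsto 2)
  exact small_of_growth _ s (ww_pos _) (growth s).2

lemma xx_tail (k : ℕ) :
    ∃ l : ℝ, 0 < l ∧ Tendsto (fun s : ℕ => xx (3 ^ s - (k + 2))) atTop (𝓝 l) := by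
  apply back_tail xx AA (fun n => 3 / 2 - BB n) xx_pos xx_le xx_succ AA_tail _ xx_tail0
  intro j
  obtain ⟨l, hl⟩ := BB_tail j
  exact ⟨3 / 2 - l, hl.const_sub _⟩

lemma ww_tail (k : ℕ) :
    ∃ l : ℝ, 0 < l ∧ Tendsto (fun s : ℕ => ww (3 ^ s - (k + 2))) atTop (𝓝 l) := by
  apply back_tail ww AA (fun n => BB n + 19 / 10) ww_pos ww_le ww_succ AA_tail _ ww_tail0
  intro j
  obtain ⟨l, hl⟩ := BB_tail j
  exact ⟨l + 19 / 10, hl.add_const _⟩

/-- `B n = b_{n+1}` for the Julia set of the sequence. -/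
noncomputable def B0 (n : ℕ) : ℝ := if n % 3 = 0 then 0
  else if n % 3 = 1 then (ww (n / 3) - xx (n / 3)) / (ww (n / 3) + xx (n / 3))
  else (xx (n / 3) - ww (n / 3)) / (xx (n / 3) + ww (n / 3))

/-- `A n = a_n^2` for the Julia set of the sequence. -/
noncomputable def A0 (n : ℕ) : ℝ :=
  if n = 0 then 0
  else if n % 3 = 0 then AA (n / 3) * ((xx (n / 3 - 1))⁻¹ + (ww (n / 3 - 1))⁻¹) / (17 / 10)
  else if n % 3 = 1 then (xx (n / 3) + ww (n / 3)) / (17 / 10)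
  else 4 * xx (n / 3) * ww (n / 3) / (xx (n / 3) + ww (n / 3)) ^ 2

lemma B00 (n : ℕ) : B0 (3 * n) = 0 := by rw [B0, if_pos (by omega)]
lemma B01 (n : ℕ) : B0 (3 * n + 1) = (ww n - xx n) / (ww n + xx n) := by
  rw [B0, if_neg (by omega), if_pos (by omega), show (3 * n + 1) / 3 = n by omega]
lemma B02 (n : ℕ) : B0 (3 * n + 2) = (xx n - ww n) / (xx n + ww n) := by
  rw [B0, if_neg (by omega), if_neg (by omega), show (3 * n + 2) / 3 = n by omega]
lemma A0z : A0 0 = 0 := by rw [A0, if_pos rfl]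
lemma A03 (n : ℕ) : A0 (3 * n + 3) = AA (n + 1) * ((xx n)⁻¹ + (ww n)⁻¹) / (17 / 10) := by
  rw [A0, if_neg (by omega), if_pos (by omega), show (3 * n + 3) / 3 = n + 1 by omega,
    Nat.add_sub_cancel]
lemma A01 (n : ℕ) : A0 (3 * n + 1) = (xx n + ww n) / (17 / 10) := by
  rw [A0, if_neg (by omega), if_neg (by omega), if_pos (by omega),
    show (3 * n + 1) / 3 = n by omega]
lemma A02 (n : ℕ) : A0 (3 * n + 2) = 4 * xx n * ww n / (xx n + ww n) ^ 2 := by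
  rw [A0, if_neg (by omega), if_neg (by omega), if_neg (by omega),
    show (3 * n + 2) / 3 = n by omega]

lemma A0_pos (n : ℕ) : 0 < A0 (n + 1) := by
  rcases (show n % 3 = 0 ∨ n % 3 = 1 ∨ n % 3 = 2 by omega) with h | h | h
  · obtain ⟨k, hk⟩ : ∃ k, n = 3 * k := ⟨n / 3, by omega⟩
    rw [hk, A01]
    have := xx_pos k; have := ww_pos k; positivity
  · obtain ⟨k, hk⟩ : ∃ k, n = 3 * k + 1 := ⟨n / 3, by omega⟩
    rw [hk, show 3 * k + 1 + 1 = 3 * k + 2 by ring, A02]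
    have := xx_pos k; have := ww_pos k; positivity
  · obtain ⟨k, hk⟩ : ∃ k, n = 3 * k + 2 := ⟨n / 3, by omega⟩
    rw [hk, show 3 * k + 2 + 1 = 3 * k + 3 by ring, A03]
    have := xx_pos k; have := ww_pos k; have := (AA_bd (k + 1)).2.2 (by omega); positivity

theorem renorm_0 : Renorm (17 / 20) (-1 / 5) AA BB A0 B0 where
  l0 := by norm_num
  hA0 := A0z
  hB0 := B00
  hB1 := fun n => by
    have := xx_pos n; have := ww_pos n
    rw [B01, B02, ← neg_div, neg_sub, add_comm (ww n)]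
  hA1 := fun n => by
    rcases n with _ | n
    · rw [mul_zero, zero_add, A0z]
      have := A01 0
      rw [mul_zero, zero_add] at this
      rw [this, xx_zero, ww_zero]; norm_num
    · rw [A01, show 3 * (n + 1) = 3 * n + 3 by ring, A03, xx_succ, ww_succ]
      have := xx_pos n; have := ww_pos n
      field_simp
      ring
  hA2 := fun n => by
    rw [A02, B02]
    have := xx_pos n; have := ww_pos n
    field_simp
    ring
  hA3 := fun n => by
    rw [A01, A02, A03]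
    have := xx_pos n; have := ww_pos n
    field_simp
    norm_num
    try ring
  hR0 := by
    have := B02 0
    rw [mul_zero, zero_add] at this
    rw [this, xx_zero, ww_zero, BBz]; norm_num
  hR := fun n => by
    rw [show 3 * n + 4 = 3 * (n + 1) + 1 by ring, show 3 * n + 5 = 3 * (n + 1) + 2 by ring,
      A01, B02, A03, B02]
    have h1 := xx_pos n; have h2 := ww_pos n
    have h3 := xx_pos (n + 1); have h4 := ww_pos (n + 1)
    have e1 : (xx (n + 1) + ww (n + 1)) / (17 / 10) *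
        ((xx (n + 1) - ww (n + 1)) / (xx (n + 1) + ww (n + 1))) =
        (xx (n + 1) - ww (n + 1)) / (17 / 10) := by field_simp
    have e2 : AA (n + 1) * ((xx n)⁻¹ + (ww n)⁻¹) / (17 / 10) * ((xx n - ww n) / (xx n + ww n)) =
        (AA (n + 1) / ww n - AA (n + 1) / xx n) / (17 / 10) := by field_simp; ring
    rw [e1, e2, xx_succ, ww_succ]
    ring

end Pool.Agent.H12.GJ
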